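import Pool.Agent.W367.SN.Irr

set_option autoImplicit false
open CategoryTheory Pool.Agent.W367.SN

namespace Pool.Agent.X39.AZ

section basic
variable {G : Type} [Group G] [Fintype G]

/-- class functions -/
def IsCF (f : G → ℂ) : Prop := ∀ g u, f (u * g * u⁻¹) = f g

omit [Fintype G] in
lemma irr_cf {χ : G → ℂ} (h : χ ∈ IrrC G) : IsCF χ := fun g u => irr_class h g u

omit [Fintype G] in
lemma IsCF.conj {f : G → ℂ} (h : IsCF f) {a b : G} (hab : IsConj a b) : f a = f b := by
  obtain ⟨c, hc⟩ := isConj_iff.1 hab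
  rw [← hc, h]

omit [Fintype G] in
lemma IsCF.comm {f : G → ℂ} (h : IsCF f) (a b : G) : f (a * b) = f (b * a) := by
  have := h (a * b) b
  rw [← this]
  congr 1
  group

lemma card_ne : (Fintype.card G : ℂ) ≠ 0 := by exact_mod_cast Fintype.card_ne_zero

lemma irr_pair_self {χ : G → ℂ} (h : χ ∈ IrrC G) : ∑ g, χ g * χ g⁻¹ = Fintype.card G := irr_norm h

/-- the finite set of irreducible characters -/
noncomputable def I (G : Type) [Group G] [Fintype G] : Finset (G → ℂ) :=
  (irr_finite (Γ := G)).toFinset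

lemma mem_I {χ : G → ℂ} : χ ∈ I G ↔ χ ∈ IrrC G := Set.Finite.mem_toFinset _

/-- the coefficients of a class function -/
noncomputable def coef (F χ : G → ℂ) : ℂ := (Fintype.card G : ℂ)⁻¹ * ∑ g, F g * χ g⁻¹

lemma coef_self {χ : G → ℂ} (h : χ ∈ IrrC G) : coef χ χ = 1 := by
  unfold coef
  rw [irr_norm h, inv_mul_cancel₀ card_ne]

lemma coef_ne {χ ψ : G → ℂ} (h : χ ∈ IrrC G) (h' : ψ ∈ IrrC G) (hne : χ ≠ ψ) : coef χ ψ = 0 := by
  unfold coef
  rw [irr_orth h h' hne, mul_zero]

lemma coef_sum {ι : Type*} (s : Finset ι) (a : ι → ℂ) (f : ι → G → ℂ) (ψ : G → ℂ) :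
    coef (fun g => ∑ i ∈ s, a i * f i g) ψ = ∑ i ∈ s, a i * coef (f i) ψ := by
  unfold coef
  simp only [Finset.sum_mul, Finset.mul_sum]
  rw [Finset.sum_comm]
  refine Finset.sum_congr rfl fun i _ => Finset.sum_congr rfl fun g _ => ?_
  ring

/-- expansion of a class function in irreducible characters -/
theorem expand {F : G → ℂ} (hF : IsCF F) (x : G) : F x = ∑ χ ∈ I G, coef F χ * χ x := by
  classical
  have h0 : (fun g => F g - ∑ χ ∈ I G, coef F χ * χ g) = 0 := by
    refine irr_complete _ (fun g u => ?_) (fun ψ hψ => ?_)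
    · rw [hF]
      congr 1
      refine Finset.sum_congr rfl fun χ hχ => ?_
      rw [irr_class (mem_I.1 hχ)]
    · have h1 := coef_sum (I G) (fun χ => coef F χ) (fun χ => χ) ψ
      have h2 : ∑ i ∈ I G, coef F i * coef i ψ = coef F ψ := by
        rw [Finset.sum_eq_single ψ]
        · rw [coef_self hψ, mul_one]
        · intro χ hχ hne
          rw [coef_ne (mem_I.1 hχ) hψ hne, mul_zero]
        · intro h
          exact absurd (mem_I.2 hψ) h
      rw [h2] at h1
      have h3 : ∑ g, (∑ χ ∈ I G, coef F χ * χ g) * ψ g⁻¹ = ∑ g, F g * ψ g⁻¹ := by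
        unfold coef at h1
        exact mul_left_cancel₀ (inv_ne_zero card_ne) h1
      simp only [sub_mul, Finset.sum_sub_distrib]
      rw [h3, sub_self]
  have := congrFun h0 x
  simp only [Pi.zero_apply] at this
  exact sub_eq_zero.1 this

/-- uniqueness of the expansion -/
theorem coef_unique {a : (G → ℂ) → ℂ} (h : ∀ x : G, ∑ χ ∈ I G, a χ * χ x = 0) :
    ∀ χ ∈ I G, a χ = 0 := by
  classical
  intro ψ hψ
  have h1 := coef_sum (I G) a (fun χ => χ) ψ
  have h2 : ∑ i ∈ I G, a i * coef i ψ = a ψ := by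
    rw [Finset.sum_eq_single ψ]
    · rw [coef_self (mem_I.1 hψ), mul_one]
    · intro χ hχ hne
      rw [coef_ne (mem_I.1 hχ) (mem_I.1 hψ) hne, mul_zero]
    · intro h
      exact absurd hψ h
  rw [h2] at h1
  rw [← h1]
  unfold coef
  simp only [h, zero_mul, Finset.sum_const_zero, mul_zero]

/-- the product formula -/
theorem prod_formula {χ : G → ℂ} (h : χ ∈ IrrC G) (x y : G) :
    ∑ g, χ (x * (g * y * g⁻¹)) = Fintype.card G * (χ x * χ y / χ 1) := by
  obtain ⟨V, hV, rfl⟩ := h
  have hne : V.character 1 ≠ 0 := irr_one_ne ⟨V, hV, rfl⟩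
  let T : V →ₗ[ℂ] V := ∑ g : G, V.ρ (g * y * g⁻¹)
  have hT : ∀ u v, T (V.ρ u v) = V.ρ u (T v) := by
    intro u v
    simp only [T, LinearMap.sum_apply, map_sum]
    rw [← Equiv.sum_comp (Equiv.mulLeft u)]
    refine Finset.sum_congr rfl fun g _ => ?_
    change V.ρ (u * g * y * (u * g)⁻¹) (V.ρ u v) = V.ρ u (V.ρ (g * y * g⁻¹) v)
    rw [← Module.End.mul_apply, ← map_mul, ← Module.End.mul_apply, ← map_mul]
    congr 2
    group
  obtain ⟨c, hc⟩ := schur V hV T hT
  have hTc : T = c • LinearMap.id := LinearMap.ext hc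
  have htr : ∀ z : G, ∑ g, V.character (z * (g * y * g⁻¹)) = c * V.character z := by
    intro z
    have h1 : (V.ρ z) ∘ₗ T = c • V.ρ z := by
      rw [hTc]
      ext v
      simp
    have h2 := congrArg (LinearMap.trace ℂ V) h1
    rw [map_smul, smul_eq_mul] at h2
    have h3 : (V.ρ z) ∘ₗ T = ∑ g : G, V.ρ (z * (g * y * g⁻¹)) := by
      apply LinearMap.ext
      intro v
      simp only [T, LinearMap.comp_apply, LinearMap.sum_apply, map_sum]
      refine Finset.sum_congr rfl fun g _ => ?_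
      rw [map_mul _ z, Module.End.mul_apply]
    rw [h3, map_sum] at h2
    exact h2
  have h1 := htr 1
  simp only [one_mul] at h1
  have h2 : ∑ g : G, V.character (g * y * g⁻¹) = Fintype.card G * V.character y := by
    simp only [V.char_conj]
    simp
  rw [h2] at h1
  rw [htr x]
  field_simp
  linear_combination (-(V.character x)) * h1

end basic

end Pool.Agent.X39.AZ
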