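import Pool.Agent.X39.AZ.Lin

set_option autoImplicit false
open CategoryTheory Pool.Agent.W367.SN

namespace Pool.Agent.X39.AZ

lemma kk_comm {A : Type} [Group A] (h : ∀ a b : A, a * b = b * a) : kk A = Nat.card A := by
  unfold kk
  symm
  refine Nat.card_eq_of_bijective (ConjClasses.mk : A → ConjClasses A) ⟨?_, ConjClasses.mk_surjective⟩
  intro a b hab
  rw [ConjClasses.mk_eq_mk_iff_isConj] at hab
  obtain ⟨u, hu⟩ := isConj_iff.1 hab
  rw [← hu, h u a, mul_inv_cancel_right]

lemma quot_comm {G : Type} [Group G] (a b : G ⧸ commutator G) : a * b = b * a := by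
  obtain ⟨a, rfl⟩ := QuotientGroup.mk_surjective a
  obtain ⟨b, rfl⟩ := QuotientGroup.mk_surjective b
  change (QuotientGroup.mk (a * b) : G ⧸ commutator G) = QuotientGroup.mk (b * a)
  rw [QuotientGroup.eq]
  rw [← Abelianization.ker_of G, MonoidHom.mem_ker]
  rw [map_mul, map_inv, map_mul, map_mul, mul_comm (Abelianization.of b), inv_mul_cancel]

section caseA
variable {G : Type} [Group G] [Fintype G]

open Classical in
/-- the nonlinear characters -/
noncomputable def NL (G : Type) [Group G] [Fintype G] : Finset (G → ℂ) :=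
  (I G).filter (fun χ => ¬ Tr (commutator G) χ)

lemma mem_NL {χ : G → ℂ} : χ ∈ NL G ↔ χ ∈ I G ∧ ¬ Tr (commutator G) χ := by
  classical
  unfold NL
  rw [Finset.mem_filter]

theorem card_NL : Nat.card (G ⧸ commutator G) + (NL G).card = kk G := by
  classical
  have h1 := card_Tr (commutator G)
  have h2 : kk (G ⧸ commutator G) = Nat.card (G ⧸ commutator G) := kk_comm quot_comm
  have h3 := Finset.card_filter_add_card_filter_not (s := I G) (fun χ => Tr (commutator G) χ)
  rw [card_I] at h3
  unfold NL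
  unfold kk at h2 ⊢
  rw [← h3, ← h2, ← h1]

theorem NL_L (p : ℕ) [hp : Fact p.Prime] (hG : IsPGroup p G) :
    (NL G).card * Nat.card (G ⧸ commutator G) ≤ 2 * zz G := by
  classical
  unfold zz
  rw [Finset.mul_sum]
  calc (NL G).card * Nat.card (G ⧸ commutator G) = ∑ χ ∈ NL G, Nat.card (G ⧸ commutator G) := by
        rw [Finset.sum_const, smul_eq_mul]
    _ ≤ ∑ χ ∈ NL G, 2 * zr χ := by
        refine Finset.sum_le_sum fun χ hχ => ?_
        rw [mem_NL] at hχ
        exact nonlin_zeros p G hG (mem_I.1 hχ.1) hχ.2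
    _ ≤ ∑ χ ∈ I G, 2 * zr χ := by
        refine Finset.sum_le_sum_of_subset fun χ hχ => ?_
        exact (mem_NL.1 hχ).1

/-- the dichotomy of step 1 -/
theorem step1 (p : ℕ) [hp : Fact p.Prime] (hG : IsPGroup p G) (α : ℕ) (hz : zz G ≤ α * kk G) :
    (NL G).card ≤ 4 * α ∨ Nat.card (G ⧸ commutator G) ≤ 4 * α := by
  have h1 := NL_L p hG
  have h2 := card_NL (G := G)
  by_contra h
  push Not at h
  rw [← h2] at hz
  set N := (NL G).card
  set L := Nat.card (G ⧸ commutator G)
  have h3 : N * L ≤ 2 * (α * (L + N)) := h1.trans (Nat.mul_le_mul_left _ hz)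
  have h4 : (4 * α + 1) * L ≤ N * L := Nat.mul_le_mul_right _ h.1
  have h5 : N * (4 * α + 1) ≤ N * L := Nat.mul_le_mul_left _ h.2
  nlinarith

lemma lin_ne {χ : G → ℂ} (hχ : χ ∈ IrrC G) (h : Tr (commutator G) χ) (g : G) : χ g ≠ 0 := by
  intro h0
  have h1 := scal (commutator G) hχ h (c := g) (fun u => by
    have h5 : g⁻¹ * (u * g * u⁻¹) ∈ commutator G := by
      rw [← Abelianization.ker_of G, MonoidHom.mem_ker]
      simp only [map_mul, map_inv]
      rw [mul_comm (Abelianization.of u) (Abelianization.of g), mul_inv_cancel_right, inv_mul_cancel]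
    exact h5) g⁻¹
  rw [inv_mul_cancel, h0, mul_zero, zero_div] at h1
  exact irr_one_ne hχ h1

lemma zr_lin {χ : G → ℂ} (hχ : χ ∈ I G) (h : Tr (commutator G) χ) : zr χ = 0 := by
  unfold zr
  rw [Nat.card_eq_zero]
  left
  constructor
  rintro ⟨c, hc⟩
  exact lin_ne (mem_I.1 hχ) h _ hc

theorem zz_NL : zz G = ∑ χ ∈ NL G, zr χ := by
  classical
  unfold zz
  symm
  apply Finset.sum_subset (fun χ hχ => (mem_NL.1 hχ).1)
  intro χ h1 h2
  rw [mem_NL] at h2
  push Not at h2
  exact zr_lin h1 (h2 h1)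

/-- the number of classes on which `χ` is nonzero -/
noncomputable def nz (χ : G → ℂ) : ℕ := Nat.card {c : ConjClasses G // ¬ cv χ c = 0}

lemma zr_add_nz (χ : G → ℂ) : zr χ + nz χ = kk G := by
  unfold zr nz kk
  rw [← Nat.card_sum]
  classical
  exact Nat.card_congr (Equiv.sumCompl _)

lemma nz_pos {χ : G → ℂ} (hχ : χ ∈ I G) : 0 < nz χ := by
  unfold nz
  have : Nonempty {c : ConjClasses G // ¬ cv χ c = 0} :=
    ⟨⟨ConjClasses.mk 1, by rw [cv_mk (irr_cf (mem_I.1 hχ))]; exact irr_one_ne (mem_I.1 hχ)⟩⟩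
  exact Nat.card_pos

lemma fib_NL {χ : G → ℂ} (hχ : χ ∈ NL G) : fib (commutator G) χ ⊆ NL G := by
  classical
  intro ψ hψ
  rw [mem_NL] at hχ ⊢
  unfold fib at hψ
  rw [Finset.mem_filter] at hψ
  refine ⟨hψ.1, fun hT => hχ.2 ?_⟩
  have h1 := nf_eq_iff.1 hψ.2
  have h2 : ∀ m ∈ commutator G, χ m = χ 1 := by
    intro m hm
    have h3 := h1 m hm
    have h4 := hT m hm 1
    rw [one_mul] at h4
    rw [h4, div_self (irr_one_ne (mem_I.1 hψ.1))] at h3
    have h5 := irr_one_ne (mem_I.1 hχ.1)
    field_simp at h3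
    exact h3.symm
  refine (dich (commutator G) (mem_I.1 hχ.1)).resolve_right fun h => ?_
  have h3 := h 1
  have h4 : ∑ n : commutator G, χ (1 * n) = ∑ n : commutator G, χ 1 := by
    refine Finset.sum_congr rfl fun n _ => ?_
    rw [one_mul]
    exact h2 n n.2
  rw [h4, Finset.sum_const, Finset.card_univ, nsmul_eq_mul] at h3
  rcases mul_eq_zero.1 h3 with h5 | h5
  · exact Fintype.card_ne_zero (by exact_mod_cast h5)
  · exact irr_one_ne (mem_I.1 hχ.1) h5

/-- each coset of the commutator subgroup contains few classes -/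
theorem coset_bound (d : ConjClasses (G ⧸ commutator G)) :
    Nat.card {c : ConjClasses G | nd (commutator G) (Quotient.out c) = d} ≤ (NL G).card + 1 := by
  classical
  let S : Set (ConjClasses G) := {c | nd (commutator G) (Quotient.out c) = d}
  let W : Finset (S → ℂ) := insert (fun _ => 1) ((NL G).image (fun χ => fun c : S => cv χ c))
  have h := restrict_bound S W (fun χ hχ => by
    by_cases hT : Tr (commutator G) χ
    · rcases isEmpty_or_nonempty S with hS | ⟨⟨c0⟩⟩
      · have : (fun c : S => cv χ c) = 0 := Subsingleton.elim _ _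
        rw [this]
        exact Submodule.zero_mem _
      · have e : (fun c : S => cv χ c) = (cv χ c0) • (fun _ => 1) := by
          funext c
          simp only [Pi.smul_apply, smul_eq_mul, mul_one]
          refine tr_nd (irr_cf (mem_I.1 hχ)) hT ?_
          have h1 : nd (commutator G) (Quotient.out (c : ConjClasses G)) = d := c.2
          have h2 : nd (commutator G) (Quotient.out (c0 : ConjClasses G)) = d := c0.2
          rw [h1, h2]
        rw [e]
        exact Submodule.smul_mem _ _ (Submodule.subset_span (Finset.mem_coe.2 (Finset.mem_insert_self _ _)))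
    · refine Submodule.subset_span (Finset.mem_coe.2 (Finset.mem_insert_of_mem ?_))
      exact Finset.mem_image_of_mem (fun χ => fun c : S => cv χ c) (mem_NL.2 ⟨hχ, hT⟩))
  refine h.trans ((Finset.card_insert_le _ _).trans ?_)
  have := Finset.card_image_le (s := NL G) (f := fun χ => fun c : S => cv χ c)
  omega

theorem nz_le {χ : G → ℂ} (hχ : χ ∈ NL G) : nz χ ≤ ((NL G).card + 1) * (NL G).card := by
  classical
  have hfin : Finite (ConjClasses (G ⧸ commutator G)) := inferInstance
  have := Fintype.ofFinite (ConjClasses (G ⧸ commutator G))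
  let s : Finset (ConjClasses G) := Finset.univ.filter (fun c => ¬ cv χ c = 0)
  let f : ConjClasses G → ConjClasses (G ⧸ commutator G) := fun c => nd (commutator G) (Quotient.out c)
  have hs : nz χ = s.card := by
    unfold nz
    rw [Nat.card_eq_fintype_card, Fintype.card_subtype]
  have h1 : s.card ≤ ((NL G).card + 1) * (s.image f).card := by
    refine Finset.card_le_mul_card_image s _ fun d _ => ?_
    refine le_trans ?_ (coset_bound d)
    rw [Set.coe_ofPred, Nat.card_eq_fintype_card, Fintype.card_subtype]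
    refine Finset.card_le_card fun c hc => ?_
    rw [Finset.mem_filter] at hc ⊢
    exact ⟨Finset.mem_univ _, hc.2⟩
  have h2 : (s.image f).card ≤ (NL G).card := by
    have h3 := (node_bound (commutator G) (mem_I.1 (mem_NL.1 hχ).1)).trans
      (Finset.card_le_card (fib_NL hχ))
    refine le_trans ?_ h3
    rw [Nat.card_eq_fintype_card, Fintype.card_subtype]
    refine Finset.card_le_card fun d hd => ?_
    obtain ⟨c, hc, rfl⟩ := Finset.mem_image.1 hd
    rw [Finset.mem_filter]
    refine ⟨Finset.mem_univ _, Quotient.out c, rfl, ?_⟩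
    exact (Finset.mem_filter.1 hc).2
  rw [hs]
  exact h1.trans (Nat.mul_le_mul_left _ h2)

theorem caseA (hna : (NL G).Nonempty) (a : ℝ) (ha : (zz G : ℝ) = a * kk G) (N : ℕ)
    (hN : (NL G).card ≤ N) : (kk G : ℝ) ≤ N * ((N + 1) * N) / (⌊a⌋ + 1 - a) := by
  have h1 : (((NL G).card : ℝ) - a) * kk G = ∑ χ ∈ NL G, (nz χ : ℝ) := by
    have h2 : ∑ χ ∈ NL G, (nz χ : ℝ) + zz G = (NL G).card * kk G := by
      rw [zz_NL]
      push_cast
      rw [← Finset.sum_add_distrib]
      rw [← nsmul_eq_mul, ← Finset.sum_const]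
      refine Finset.sum_congr rfl fun χ _ => ?_
      rw [← zr_add_nz χ]
      push_cast
      ring
    rw [ha] at h2
    linarith
  have h2 : (0 : ℝ) < ∑ χ ∈ NL G, (nz χ : ℝ) := by
    refine Finset.sum_pos (fun χ hχ => ?_) hna
    exact_mod_cast nz_pos (mem_NL.1 hχ).1
  have h3 : ∑ χ ∈ NL G, (nz χ : ℝ) ≤ N * ((N + 1) * N) := by
    have h4 : ∑ χ ∈ NL G, nz χ ≤ (NL G).card * (((NL G).card + 1) * (NL G).card) := by
      rw [← smul_eq_mul (a := (NL G).card)]
      exact Finset.sum_le_card_nsmul _ _ _ fun χ hχ => nz_le hχ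
    have h5 : (NL G).card * (((NL G).card + 1) * (NL G).card) ≤ N * ((N + 1) * N) := by
      gcongr
    exact_mod_cast h4.trans h5
  have hk : (0 : ℝ) < kk G := by
    have : 0 < kk G := Nat.card_pos
    exact_mod_cast this
  have h4 : 0 < ((NL G).card : ℝ) - a := by
    rw [← h1] at h2
    exact (pos_iff_pos_of_mul_pos h2).2 hk
  have h5 : (⌊a⌋ : ℝ) + 1 ≤ (NL G).card := by
    have h6 : ⌊a⌋ < ((NL G).card : ℤ) := by
      rw [Int.floor_lt]
      push_cast
      linarith
    have h7 : ⌊a⌋ + 1 ≤ ((NL G).card : ℤ) := h6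
    exact_mod_cast h7
  have h6 : (0 : ℝ) < ⌊a⌋ + 1 - a := by
    have := Int.lt_floor_add_one a
    linarith
  rw [le_div_iff₀ h6]
  calc (kk G : ℝ) * (⌊a⌋ + 1 - a) ≤ kk G * (((NL G).card : ℝ) - a) := by
        apply mul_le_mul_of_nonneg_left _ hk.le
        linarith
    _ = ∑ χ ∈ NL G, (nz χ : ℝ) := by rw [← h1]; ring
    _ ≤ _ := h3

end caseA

end Pool.Agent.X39.AZ
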