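import Pool.Agent.X39.AZ.Win
import Pool.Agent.X39.AZ.CaseA

set_option autoImplicit false
open CategoryTheory Pool.Agent.W367.SN

namespace Pool.Agent.X39.AZ

section caseB
variable {G : Type} [Group G] [Fintype G]

/-- Markov's inequality for columns -/
theorem markov (α : ℕ) (hz : zz G ≤ α * kk G) :
    kk G ≤ 2 * Nat.card {c : ConjClasses G // zc c ≤ 2 * α} := by
  classical
  rw [zz_eq] at hz
  have h1 : ((Finset.univ : Finset (ConjClasses G)).filter (fun c => ¬ zc c ≤ 2 * α)).card *
      (2 * α + 1) ≤ ∑ c : ConjClasses G, zc c := by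
    calc ((Finset.univ : Finset (ConjClasses G)).filter (fun c => ¬ zc c ≤ 2 * α)).card *
        (2 * α + 1) ≤ ∑ c ∈ (Finset.univ : Finset (ConjClasses G)).filter (fun c => ¬ zc c ≤ 2 * α),
          zc c := by
          rw [← smul_eq_mul]
          refine Finset.card_nsmul_le_sum _ _ _ fun c hc => ?_
          have := (Finset.mem_filter.1 hc).2
          omega
      _ ≤ _ := Finset.sum_le_sum_of_subset (Finset.filter_subset _ _)
  have h2 := Finset.card_filter_add_card_filter_not (s := (Finset.univ : Finset (ConjClasses G)))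
    (fun c => zc c ≤ 2 * α)
  have h3 : kk G = (Finset.univ : Finset (ConjClasses G)).card := by
    unfold kk
    rw [Nat.card_eq_fintype_card, Finset.card_univ]
  rw [← h3] at h2
  rw [Nat.card_eq_fintype_card, Fintype.card_subtype]
  set a := ((Finset.univ : Finset (ConjClasses G)).filter (fun c => zc c ≤ 2 * α)).card
  set b := ((Finset.univ : Finset (ConjClasses G)).filter (fun c => ¬ zc c ≤ 2 * α)).card
  have h4 : b * (2 * α + 1) ≤ α * kk G := h1.trans hz
  by_contra hcon
  push Not at hcon
  nlinarith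

lemma zc_one : zc (ConjClasses.mk (1 : G)) = 0 := by
  classical
  unfold zc
  rw [Finset.card_eq_zero, Finset.filter_eq_empty_iff]
  intro χ hχ
  rw [cv_mk (irr_cf (mem_I.1 hχ))]
  exact irr_one_ne (mem_I.1 hχ)

theorem p_le_ab (p : ℕ) [hp : Fact p.Prime] (hG : IsPGroup p G) [Nontrivial G] :
    p ≤ Nat.card (G ⧸ commutator G) := by
  obtain ⟨i, hi⟩ := IsPGroup.iff_card.1 (hG.to_quotient (commutator G))
  have hi0 : i ≠ 0 := by
    rintro rfl
    rw [pow_zero] at hi
    have h1 : commutator G = ⊤ := Subgroup.index_eq_one.1 hi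
    have h2 : Subgroup.closure (∅ : Set G) = ⊤ := by
      apply gen_of_frattini
      intro x
      refine ⟨1, Subgroup.one_mem _, ?_⟩
      apply comm_le_frattini p hG
      rw [h1]
      trivial
    rw [Subgroup.closure_empty] at h2
    exact bot_ne_top h2
  rw [hi]
  calc p = p ^ 1 := (pow_one p).symm
    _ ≤ p ^ i := Nat.pow_le_pow_right hp.out.pos (Nat.one_le_iff_ne_zero.2 hi0)

/-- the bound on the index of `H` -/
def h0 (α : ℕ) : ℕ := (4 * α + 4) ^ (4 * α + 4)
/-- the bound on the index of `A` -/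
def bb (α : ℕ) : ℕ := h0 α * ((4 * α) ^ (2 * α)) ^ ((4 * α) ^ (h0 α * (4 * α)))
/-- the bound on the exponent of `A` -/
def ee (α : ℕ) : ℕ := (4 * bb α * α + 2 * bb α ^ 2 + 1) * (bb α * (4 * α) + 1)
/-- the bound on `|G|` in case B -/
def BB (α : ℕ) : ℕ := ((4 * α) ^ ee α) ^ (bb α * (4 * α)) * bb α

/-- an abelian normal subgroup of bounded index -/
theorem exists_A (p : ℕ) [hp : Fact p.Prime] (hG : IsPGroup p G) [Nontrivial G] (α : ℕ)
    (hz : zz G ≤ α * kk G) (hL : Nat.card (G ⧸ commutator G) ≤ 4 * α) :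
    ∃ A : Subgroup G, A.Normal ∧ (∀ a ∈ A, ∀ b ∈ A, a * b = b * a) ∧ A.index ≤ bb α := by
  classical
  have hp4 : p ≤ 4 * α := (p_le_ab p hG).trans hL
  set Sm : Set G := {g | zc (ConjClasses.mk g) ≤ 2 * α} with hSm
  set H := Subgroup.closure Sm with hH
  have hconj : ∀ s g : G, ConjClasses.mk (g * s * g⁻¹) = ConjClasses.mk s := by
    intro s g
    rw [ConjClasses.mk_eq_mk_iff_isConj]
    exact (isConj_iff.2 ⟨g, rfl⟩).symm
  have hHn : H.Normal := ⟨fun n hn g => by
    have h1 : H ≤ H.comap (MulAut.conj g).toMonoidHom := by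
      rw [hH, Subgroup.closure_le]
      intro s hs
      refine Subgroup.subset_closure ?_
      change zc (ConjClasses.mk (g * s * g⁻¹)) ≤ 2 * α
      rw [hconj]
      exact hs
    exact h1 hn⟩
  -- the index of `H`
  have hHi : H.index ≤ h0 α := by
    have h1 : kk G ≤ 2 * Nat.card {c : ConjClasses G // Quotient.out c ∈ H} := by
      refine (markov α hz).trans (Nat.mul_le_mul_left _ ?_)
      refine Nat.card_le_card_of_injective (fun c : {c : ConjClasses G // zc c ≤ 2 * α} =>
        (⟨c.1, Subgroup.subset_closure (by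
          change zc (ConjClasses.mk (Quotient.out c.1)) ≤ 2 * α
          rw [mk_out]
          exact c.2)⟩ : {c : ConjClasses G // Quotient.out c ∈ H})) ?_
      intro c c' h
      exact Subtype.ext (congrArg (fun x => x.1) h)
    have h2 := lemR H α hz h1
    have h3 := card_le_kk_pow p (G ⧸ H) (hG.to_quotient H)
    change Nat.card (G ⧸ H) ≤ _
    refine h3.trans ?_
    unfold h0
    have h4 : 0 < kk (G ⧸ H) := Nat.card_pos
    exact (Nat.pow_le_pow_left h2 _).trans (Nat.pow_le_pow_right (by omega) h2)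
  -- ranks
  have hrG : Group.rank G ≤ 4 * α := (rank_le_ab p G hG).trans hL
  have hrH : Group.rank H ≤ h0 α * (4 * α) :=
    (Subgroup.rank_le_index_mul_rank H).trans (Nat.mul_le_mul hHi hrG)
  -- a small generating set
  obtain ⟨F, hFS, hFc, hFg⟩ := small_gen p H (hG.to_subgroup H) (((↑) : H → G) ⁻¹' Sm) (by
    change zc (ConjClasses.mk ((1 : H) : G)) ≤ 2 * α
    rw [OneMemClass.coe_one, zc_one]
    exact Nat.zero_le _) Subgroup.closure_closure_coe_preimage
  have hFc' : F.card ≤ (4 * α) ^ (h0 α * (4 * α)) :=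
    hFc.trans ((Nat.pow_le_pow_left hp4 _).trans (Nat.pow_le_pow_right (by have := hp.out.pos; omega) hrH))
  have hFH : Subgroup.closure ((↑) '' (F : Set H) : Set G) = H := by
    have h1 := MonoidHom.map_closure H.subtype (F : Set H)
    rw [hFg, ← MonoidHom.range_eq_map, Subgroup.range_subtype] at h1
    exact h1.symm
  set C := Subgroup.centralizer (H : Set G) with hC
  have hle : (⨅ f : F, Subgroup.centralizer ({((f : H) : G)} : Set G)) ≤ C := by
    intro x hx
    rw [Subgroup.mem_iInf] at hx
    rw [Subgroup.mem_centralizer_iff]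
    have h1 : H ≤ Subgroup.centralizer ({x} : Set G) := by
      rw [← hFH, Subgroup.closure_le]
      rintro _ ⟨f, hf, rfl⟩
      have h2 := hx ⟨f, Finset.mem_coe.1 hf⟩
      rw [Subgroup.mem_centralizer_singleton_iff] at h2
      rw [SetLike.mem_coe, Subgroup.mem_centralizer_singleton_iff]
      exact h2.symm
    intro h hh
    have h3 := h1 hh
    rw [Subgroup.mem_centralizer_singleton_iff] at h3
    exact h3
  have hCi : C.index ≤ ((4 * α) ^ (2 * α)) ^ ((4 * α) ^ (h0 α * (4 * α))) := by
    have h1 : C.index ≤ (⨅ f : F, Subgroup.centralizer ({((f : H) : G)} : Set G)).index :=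
      Nat.le_of_dvd (Nat.pos_of_ne_zero Subgroup.index_ne_zero_of_finite)
        (Subgroup.index_dvd_of_le hle)
    have h2 := Subgroup.index_iInf_le (fun f : F => Subgroup.centralizer ({((f : H) : G)} : Set G))
    have h3 : ∏ f : F, (Subgroup.centralizer ({((f : H) : G)} : Set G)).index ≤
        ((4 * α) ^ (2 * α)) ^ F.card := by
      have h4 := Finset.prod_le_pow_card (Finset.univ : Finset F)
        (fun f : F => (Subgroup.centralizer ({((f : H) : G)} : Set G)).index) ((4 * α) ^ (2 * α))
        (fun f _ => by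
          refine (index_centralizer_le _).trans ((column_bound p G hG _).trans ?_)
          have h5 : zc (ConjClasses.mk ((f : H) : G)) ≤ 2 * α := hFS f.2
          exact (Nat.pow_le_pow_left hp4 _).trans
            (Nat.pow_le_pow_right (by have := hp.out.pos; omega) h5))
      rwa [Finset.card_univ, Fintype.card_coe] at h4
    refine h1.trans (h2.trans (h3.trans (Nat.pow_le_pow_right ?_ hFc')))
    have : 0 < 4 * α := by have := hp.out.pos; omega
    exact Nat.pow_pos this
  have hCn : C.Normal := Subgroup.normal_centralizer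
  refine ⟨H ⊓ C, Subgroup.normal_inf_normal H C, ?_, ?_⟩
  · intro a ha b hb
    rw [Subgroup.mem_inf] at ha hb
    exact (Subgroup.mem_centralizer_iff.1 hb.2 a ha.1)
  · unfold bb
    exact (Subgroup.index_inf_le).trans (Nat.mul_le_mul hHi hCi)

theorem caseB (p : ℕ) [hp : Fact p.Prime] (hG : IsPGroup p G) [Nontrivial G] (α : ℕ)
    (hz : zz G ≤ α * kk G) (hL : Nat.card (G ⧸ commutator G) ≤ 4 * α) : Nat.card G ≤ BB α := by
  classical
  have hp4 : p ≤ 4 * α := (p_le_ab p hG).trans hL
  obtain ⟨A, hAn, hA, hAi⟩ := exists_A p hG α hz hL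
  have h1 := bound_exp p hG A hA (bb α) (4 * α) α hAi hL hz
  have hrG : Group.rank G ≤ 4 * α := (rank_le_ab p G hG).trans hL
  have hrA : Group.rank A ≤ bb α * (4 * α) :=
    (Subgroup.rank_le_index_mul_rank A).trans (Nat.mul_le_mul hAi hrG)
  have h2 : Nat.card A ≤ (p ^ ee α) ^ Group.rank A := by
    refine card_pow_rank (fun a b => Subtype.ext (hA a a.2 b b.2)) (pow_ne_zero _ hp.out.ne_zero) ?_
    intro a
    apply Subtype.ext
    exact h1 a a.2
  rw [← A.card_mul_index]
  unfold BB
  refine Nat.mul_le_mul (h2.trans ?_) hAi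
  refine (Nat.pow_le_pow_left (Nat.pow_le_pow_left hp4 _) _).trans
    (Nat.pow_le_pow_right ?_ hrA)
  have : 0 < 4 * α := by have := hp.out.pos; omega
  exact Nat.pow_pos this

end caseB

end Pool.Agent.X39.AZ
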