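import Pool.Agent.X39.AZ.Base

set_option autoImplicit false
open CategoryTheory Pool.Agent.W367.SN

namespace Pool.Agent.X39.AZ

section cls
variable {G : Type} [Group G] [Fintype G]

/-- value on a conjugacy class -/
noncomputable def cv (χ : G → ℂ) (c : ConjClasses G) : ℂ := χ (Quotient.out c)

omit [Fintype G] in
lemma mk_out (c : ConjClasses G) : ConjClasses.mk (Quotient.out c) = c := Quotient.out_eq c

omit [Fintype G] in
lemma cv_mk {χ : G → ℂ} (h : IsCF χ) (g : G) : cv χ (ConjClasses.mk g) = χ g :=
  h.conj (ConjClasses.mk_eq_mk_iff_isConj.1 (mk_out _))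

omit [Fintype G] in
lemma isCF_lift (f : ConjClasses G → ℂ) : IsCF (fun g => f (ConjClasses.mk g)) := by
  intro g u
  change f _ = f _
  congr 1
  rw [ConjClasses.mk_eq_mk_iff_isConj]
  exact (isConj_iff.2 ⟨u, rfl⟩).symm

/-- If the restrictions of all irreducible characters to a set of classes lie in the span of
`r` functions, then there are at most `r` classes in the set. -/
theorem restrict_bound (S : Set (ConjClasses G)) (W : Finset (S → ℂ))
    (h : ∀ χ ∈ I G, (fun c : S => cv χ c) ∈ Submodule.span ℂ (W : Set (S → ℂ))) :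
    Nat.card S ≤ W.card := by
  classical
  have hfin : Finite (ConjClasses G) := inferInstance
  have := Fintype.ofFinite S
  have htop : Submodule.span ℂ (W : Set (S → ℂ)) = ⊤ := by
    rw [Submodule.eq_top_iff']
    intro f
    let F : ConjClasses G → ℂ := fun c => if hc : c ∈ S then f ⟨c, hc⟩ else 0
    have hF := isCF_lift (G := G) F
    have e : f = ∑ χ ∈ I G, coef (fun g => F (ConjClasses.mk g)) χ • (fun c : S => cv χ c) := by
      funext c
      have h1 := expand hF (Quotient.out (c : ConjClasses G))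
      simp only [mk_out] at h1
      have h2 : F (c : ConjClasses G) = f c := by
        simp only [F]
        rw [dif_pos c.2]
      rw [h2] at h1
      rw [h1, Finset.sum_apply]
      rfl
    rw [e]
    exact Submodule.sum_mem _ fun χ hχ => Submodule.smul_mem _ _ (h χ hχ)
  have h1 : Module.finrank ℂ (S → ℂ) ≤ W.card := by
    rw [← finrank_top ℂ (S → ℂ), ← htop]
    exact finrank_span_finset_le_card W
  rw [Module.finrank_fintype_fun_eq_card] at h1
  rwa [Nat.card_eq_fintype_card]

/-- normalised restriction to `M` -/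
noncomputable def nf (M : Subgroup G) (χ : G → ℂ) : G → ℂ := by
  classical exact fun g => if g ∈ M then χ g / χ 1 else 0

omit [Fintype G] in
lemma nf_eq_iff {M : Subgroup G} {χ ψ : G → ℂ} :
    nf M χ = nf M ψ ↔ ∀ m ∈ M, χ m / χ 1 = ψ m / ψ 1 := by
  classical
  constructor
  · intro h m hm
    have := congrFun h m
    simpa [nf, hm] using this
  · intro h
    funext g
    by_cases hg : g ∈ M
    · simp [nf, hg, h g hg]
    · simp [nf, hg]

open Classical in
/-- the members of `I G` with the same normalised restriction -/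
noncomputable def fib (M : Subgroup G) (χ : G → ℂ) : Finset (G → ℂ) :=
  (I G).filter (fun ψ => nf M ψ = nf M χ)

theorem coef_rel {M : Subgroup G} [M.Normal] {χ : G → ℂ} (hχ : χ ∈ IrrC G) {e : G → ℂ}
    (he : IsCF e) (hm : ∀ g, ∀ m ∈ M, e (g * m) = e g) {ψ : G → ℂ} (hψ : ψ ∈ I G)
    (hc : coef (fun g => e g * χ g) ψ ≠ 0) : nf M ψ = nf M χ := by
  classical
  have hF : IsCF (fun g => e g * χ g) := fun g u => by
    change e _ * χ _ = e _ * χ _
    rw [he, irr_class hχ]
  rw [nf_eq_iff]
  intro m hmM
  have key : ∀ x : G, ∑ ψ ∈ I G, (coef (fun g => e g * χ g) ψ * (ψ m / ψ 1 - χ m / χ 1)) * ψ x = 0 := by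
    intro x
    have h1 : ∑ g, (fun g => e g * χ g) (x * (g * m * g⁻¹)) =
        Fintype.card G * (e x * χ x * (χ m / χ 1)) := by
      have h2 : ∀ g : G, (fun g => e g * χ g) (x * (g * m * g⁻¹)) = e x * χ (x * (g * m * g⁻¹)) := by
        intro g
        change e _ * χ _ = _
        rw [hm x _ (‹M.Normal›.conj_mem m hmM g)]
      simp only [h2]
      rw [← Finset.mul_sum, prod_formula hχ]
      ring
    have h3 : ∑ g, (fun g => e g * χ g) (x * (g * m * g⁻¹)) =
        ∑ ψ ∈ I G, coef (fun g => e g * χ g) ψ * (Fintype.card G * (ψ x * ψ m / ψ 1)) := by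
      rw [Finset.sum_congr rfl (fun g _ => expand hF (x * (g * m * g⁻¹)))]
      rw [Finset.sum_comm]
      refine Finset.sum_congr rfl fun ψ hψ => ?_
      rw [← Finset.mul_sum, prod_formula (mem_I.1 hψ)]
    have h4 : e x * χ x = ∑ ψ ∈ I G, coef (fun g => e g * χ g) ψ * ψ x := expand hF x
    rw [h3, h4] at h1
    have h5 : (Fintype.card G : ℂ) * ∑ ψ ∈ I G,
        (coef (fun g => e g * χ g) ψ * (ψ m / ψ 1 - χ m / χ 1)) * ψ x = 0 := by
      rw [Finset.mul_sum]
      rw [Finset.sum_mul, Finset.mul_sum] at h1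
      rw [← sub_eq_zero, ← Finset.sum_sub_distrib] at h1
      rw [← h1]
      refine Finset.sum_congr rfl fun ψ _ => ?_
      ring
    exact (mul_eq_zero.1 h5).resolve_left card_ne
  have := coef_unique key ψ hψ
  exact sub_eq_zero.1 ((mul_eq_zero.1 this).resolve_left hc)

/-- the class in `G / M` of an element of `G` -/
def nd (M : Subgroup G) [M.Normal] (g : G) : ConjClasses (G ⧸ M) :=
  ConjClasses.mk (QuotientGroup.mk g)

omit [Fintype G] in
lemma nd_surj (M : Subgroup G) [M.Normal] : Function.Surjective (nd M) := fun c => by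
  obtain ⟨q, rfl⟩ := ConjClasses.mk_surjective c
  obtain ⟨g, rfl⟩ := QuotientGroup.mk_surjective q
  exact ⟨g, rfl⟩

omit [Fintype G] in
lemma nd_conj (M : Subgroup G) [M.Normal] (g u : G) : nd M (u * g * u⁻¹) = nd M g := by
  unfold nd
  rw [ConjClasses.mk_eq_mk_iff_isConj]
  refine (isConj_iff.2 ⟨(QuotientGroup.mk u : G ⧸ M), ?_⟩).symm
  rfl

omit [Fintype G] in
lemma nd_mul (M : Subgroup G) [M.Normal] (g : G) {m : G} (hm : m ∈ M) : nd M (g * m) = nd M g := by
  unfold nd
  rw [QuotientGroup.mk_mul_of_mem g hm]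

/-- An irreducible character vanishes identically on all but `|fib M χ|` classes of `G / M`. -/
theorem node_bound (M : Subgroup G) [M.Normal] {χ : G → ℂ} (hχ : χ ∈ IrrC G) :
    Nat.card {c : ConjClasses (G ⧸ M) // ∃ g, nd M g = c ∧ χ g ≠ 0} ≤ (fib M χ).card := by
  classical
  have hfin : Finite (ConjClasses (G ⧸ M)) := inferInstance
  let N := {c : ConjClasses (G ⧸ M) // ∃ g, nd M g = c ∧ χ g ≠ 0}
  have := Fintype.ofFinite N
  let e : N → G → ℂ := fun c g => if nd M g = c.1 then 1 else 0
  have he : ∀ c, IsCF (e c) := fun c g u => by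
    change (if _ then (1 : ℂ) else 0) = if _ then (1 : ℂ) else 0
    rw [nd_conj]
  have hm : ∀ c, ∀ g, ∀ m ∈ M, e c (g * m) = e c g := fun c g m hm => by
    change (if _ then (1 : ℂ) else 0) = if _ then (1 : ℂ) else 0
    rw [nd_mul M g hm]
  have hF : ∀ c, IsCF (fun g => e c g * χ g) := fun c g u => by
    change e c _ * χ _ = e c _ * χ _
    rw [he, irr_class hχ]
  let v : N → (fib M χ → ℂ) := fun c ψ => coef (fun g => e c g * χ g) ψ
  have hv : LinearIndependent ℂ v := by
    rw [Fintype.linearIndependent_iff]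
    intro a ha c
    obtain ⟨g, hg, hχg⟩ := c.2
    have h1 : ∀ d : N, e d g * χ g = ∑ ψ ∈ (fib M χ).attach, v d ψ * (ψ : G → ℂ) g := by
      intro d
      have h2 : e d g * χ g = _ := expand (hF d) g
      rw [h2, Finset.sum_attach (fib M χ) (fun ψ => coef (fun g => e d g * χ g) ψ * ψ g)]
      unfold fib
      rw [Finset.sum_filter]
      refine Finset.sum_congr rfl fun ψ hψ => ?_
      split_ifs with h
      · rfl
      · have : coef (fun g => e d g * χ g) ψ = 0 := by
          by_contra hne
          exact h (coef_rel hχ (he d) (hm d) hψ hne)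
        rw [this, zero_mul]
    have h3 : ∑ d : N, a d * (e d g * χ g) = 0 := by
      simp only [h1, Finset.mul_sum]
      rw [Finset.sum_comm]
      refine Finset.sum_eq_zero fun ψ _ => ?_
      have h4 := congrFun ha ψ
      simp only [Finset.sum_apply, Pi.smul_apply, smul_eq_mul, Pi.zero_apply] at h4
      calc ∑ d : N, a d * (v d ψ * (ψ : G → ℂ) g) = (∑ d : N, a d * v d ψ) * (ψ : G → ℂ) g := by
            rw [Finset.sum_mul]
            exact Finset.sum_congr rfl fun d _ => by ring
        _ = 0 := by rw [h4, zero_mul]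
    rw [Finset.sum_eq_single c] at h3
    · have h5 : e c g = 1 := if_pos hg
      rw [h5, one_mul] at h3
      exact (mul_eq_zero.1 h3).resolve_right hχg
    · intro d _ hd
      have h5 : e d g = 0 := if_neg fun h => hd (Subtype.ext (h.symm.trans hg))
      rw [h5, zero_mul, mul_zero]
    · intro h
      exact absurd (Finset.mem_univ c) h
  have h6 := hv.fintype_card_le_finrank
  rw [Module.finrank_fintype_fun_eq_card, Fintype.card_coe] at h6
  rw [Nat.card_eq_fintype_card]
  exact h6

/-- The number of classes inside `M` is at most the number of normalised restrictions. -/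
theorem classes_in_le [DecidableEq (G → ℂ)] (M : Subgroup G) [M.Normal] :
    Nat.card {c : ConjClasses G // Quotient.out c ∈ M} ≤ ((I G).image (nf M)).card := by
  classical
  let S : Set (ConjClasses G) := {c | Quotient.out c ∈ M}
  let W : Finset (S → ℂ) := ((I G).image (nf M)).image (fun f => fun c : S => f (Quotient.out (c : ConjClasses G)))
  have h := restrict_bound S W (fun χ hχ => by
    have e : (fun c : S => cv χ c) = χ 1 • (fun c : S => nf M χ (Quotient.out (c : ConjClasses G))) := by
      funext c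
      have hc : Quotient.out (c : ConjClasses G) ∈ M := c.2
      simp only [Pi.smul_apply, smul_eq_mul, nf, if_pos hc, cv]
      rw [mul_div_cancel₀ _ (irr_one_ne (mem_I.1 hχ))]
    rw [e]
    refine Submodule.smul_mem _ _ (Submodule.subset_span ?_)
    rw [Finset.mem_coe, Finset.mem_image]
    exact ⟨nf M χ, Finset.mem_image_of_mem _ hχ, rfl⟩)
  exact h.trans Finset.card_image_le

end cls

end Pool.Agent.X39.AZ
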