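import Pool.Agent.X39.AZ.PG

set_option autoImplicit false
open CategoryTheory Pool.Agent.W367.SN

namespace Pool.Agent.X39.AZ

/-- class size versus the class size in the quotient by a central subgroup -/
lemma cs_le {G : Type} [Group G] [Finite G] (N : Subgroup G) (hN : N ≤ Subgroup.center G) [N.Normal]
    (g : G) : Nat.card {h : G // IsConj g h} ≤
      Nat.card {n : N // IsConj g (g * n)} *
        Nat.card {q : G ⧸ N // IsConj (QuotientGroup.mk g : G ⧸ N) q} := by
  classical
  let π : {h : G // IsConj g h} → {q : G ⧸ N // IsConj (QuotientGroup.mk g : G ⧸ N) q} := fun h =>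
    ⟨QuotientGroup.mk h.1, by
      obtain ⟨u, hu⟩ := isConj_iff.1 h.2
      refine isConj_iff.2 ⟨QuotientGroup.mk u, ?_⟩
      rw [← hu]
      rfl⟩
  have hπ : Function.Surjective π := by
    rintro ⟨q, hq⟩
    obtain ⟨c, hc⟩ := isConj_iff.1 hq
    obtain ⟨u, rfl⟩ := QuotientGroup.mk_surjective c
    exact ⟨⟨u * g * u⁻¹, isConj_iff.2 ⟨u, rfl⟩⟩, Subtype.ext hc⟩
  let ρ := Function.surjInv hπ
  have hρ : ∀ q, π (ρ q) = q := Function.surjInv_eq hπ
  have hmem : ∀ h : {h : G // IsConj g h}, (ρ (π h)).1⁻¹ * h.1 ∈ N := by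
    intro h
    have h1 := congrArg Subtype.val (hρ (π h))
    exact (QuotientGroup.eq).1 h1
  have hconj : ∀ h : {h : G // IsConj g h}, IsConj g (g * ((ρ (π h)).1⁻¹ * h.1)) := by
    intro h
    obtain ⟨u, hu⟩ := isConj_iff.1 (ρ (π h)).2
    have h2 := Subgroup.mem_center_iff.1 (hN (hmem h))
    have h3 : g * ((ρ (π h)).1⁻¹ * h.1) = u⁻¹ * h.1 * u := by
      have h4 : h.1 = (ρ (π h)).1 * ((ρ (π h)).1⁻¹ * h.1) := by group
      calc g * ((ρ (π h)).1⁻¹ * h.1) = (u⁻¹ * (u * g * u⁻¹) * u) * ((ρ (π h)).1⁻¹ * h.1) := by group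
        _ = u⁻¹ * (ρ (π h)).1 * (u * ((ρ (π h)).1⁻¹ * h.1)) := by rw [hu]; group
        _ = u⁻¹ * (ρ (π h)).1 * (((ρ (π h)).1⁻¹ * h.1) * u) := by rw [h2 u]
        _ = u⁻¹ * h.1 * u := by group
    rw [h3]
    refine h.2.trans (isConj_iff.2 ⟨u⁻¹, ?_⟩)
    group
  let f : {h : G // IsConj g h} → {n : N // IsConj g (g * n)} ×
      {q : G ⧸ N // IsConj (QuotientGroup.mk g : G ⧸ N) q} := fun h =>
    (⟨⟨(ρ (π h)).1⁻¹ * h.1, hmem h⟩, hconj h⟩, π h)
  have hf : Function.Injective f := by
    intro h h' hh
    have h1 : π h = π h' := congrArg Prod.snd hh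
    have h2 : (ρ (π h)).1⁻¹ * h.1 = (ρ (π h')).1⁻¹ * h'.1 :=
      congrArg (fun x => ((x.1.1 : N) : G)) hh
    rw [h1] at h2
    exact Subtype.ext (mul_left_cancel h2)
  have := Nat.card_le_card_of_injective f hf
  rwa [Nat.card_prod] at this

theorem column_aux (p : ℕ) [hp : Fact p.Prime] : ∀ (n : ℕ) (G : Type) [Group G] [Fintype G],
    IsPGroup p G → Nat.card G ≤ n → ∀ g : G, Nat.card {h : G // IsConj g h} ≤
      p ^ zc (ConjClasses.mk g) := by
  intro n
  induction n with
  | zero =>
    intro G _ _ _ h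
    have := Nat.card_pos (α := G)
    omega
  | succ n ih =>
    intro G _ _ hG hn g
    classical
    rcases subsingleton_or_nontrivial G with hs | hs
    · have h1 : Nat.card {h : G // IsConj g h} ≤ 1 := by
        refine (Nat.card_le_card_of_injective _ Subtype.val_injective).trans ?_
        rw [Nat.card_eq_one_iff_unique.2 ⟨hs, ⟨1⟩⟩]
      exact h1.trans (Nat.one_le_pow _ _ hp.out.pos)
    · obtain ⟨N, hN, hNc, z, hz, hz1, hNz⟩ := exists_central p G hG
      have hnorm := normal_of_central hN
      have hfq : Fintype (G ⧸ N) := Fintype.ofFinite _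
      have h1 : Nat.card G = Nat.card (G ⧸ N) * Nat.card N := N.card_eq_card_quotient_mul_card_subgroup
      have h2 : Nat.card (G ⧸ N) ≤ n := by
        have h3 : 0 < Nat.card (G ⧸ N) := Nat.card_pos
        have h4 := hp.out.two_le
        rw [h1, hNc] at hn
        nlinarith
      have h3 := ih (G ⧸ N) (hG.to_quotient N) h2 (QuotientGroup.mk g)
      -- inflation
      have h4 : zc (ConjClasses.mk (QuotientGroup.mk g : G ⧸ N)) ≤
          ((I G).filter (fun χ => Tr N χ ∧ cv χ (ConjClasses.mk g) = 0)).card := by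
        unfold zc
        refine Finset.card_le_card_of_injOn (fun χ => fun g : G => χ (QuotientGroup.mk g)) ?_ ?_
        · intro χ hχ
          rw [Finset.coe_filter, Set.mem_ofPred_eq] at hχ
          have hi := inflate N (mem_I.1 hχ.1)
          rw [Finset.coe_filter, Set.mem_ofPred_eq]
          refine ⟨mem_I.2 hi, ?_, ?_⟩
          · intro m hm x
            change χ _ = χ _
            rw [QuotientGroup.mk_mul_of_mem x hm]
          · rw [cv_mk (irr_cf hi)]
            rw [cv_mk (irr_cf (mem_I.1 hχ.1))] at hχ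
            exact hχ.2
        · intro χ _ ψ _ h
          funext q
          obtain ⟨x, rfl⟩ := QuotientGroup.mk_surjective q
          exact congrFun h x
      have h5 : ((I G).filter (fun χ => Tr N χ ∧ cv χ (ConjClasses.mk g) = 0)).card +
          ((I G).filter (fun χ => ¬ Tr N χ ∧ cv χ (ConjClasses.mk g) = 0)).card =
          zc (ConjClasses.mk g) := by
        unfold zc
        rw [← Finset.card_filter_add_card_filter_not (s := (I G).filter
          (fun χ => cv χ (ConjClasses.mk g) = 0)) (fun χ => Tr N χ)]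
        rw [Finset.filter_filter, Finset.filter_filter]
        congr 2
        · exact Finset.filter_congr fun χ _ => and_comm
        · exact Finset.filter_congr fun χ _ => and_comm
      have h6 := cs_le N hN g
      by_cases hg : ∃ m ∈ N, m ≠ 1 ∧ IsConj g (g * m)
      · obtain ⟨m, hm, hm1, hmg⟩ := hg
        have h7 : Nat.card {n : N // IsConj g (g * n)} ≤ p := by
          rw [← hNc]
          exact Nat.card_le_card_of_injective _ Subtype.val_injective
        have h8 : 1 ≤ ((I G).filter (fun χ => ¬ Tr N χ ∧ cv χ (ConjClasses.mk g) = 0)).card := by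
          rw [Nat.one_le_iff_ne_zero, ← Nat.pos_iff_ne_zero, Finset.card_pos]
          have h9 : ((I G).filter (Tr N)).card < (I G).card := by
            rw [card_Tr, card_I]
            refine kk_lt N ?_
            intro h
            rw [h, Subgroup.mem_bot] at hz
            exact hz1 hz
          obtain ⟨χ, hχ, hχ2⟩ : ∃ χ ∈ I G, χ ∉ (I G).filter (Tr N) := by
            by_contra hcon
            push Not at hcon
            exact absurd (Finset.card_le_card hcon) (by omega)
          have hχ3 : ¬ Tr N χ := fun h => hχ2 (Finset.mem_filter.2 ⟨hχ, h⟩)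
          refine ⟨χ, Finset.mem_filter.2 ⟨hχ, hχ3, ?_⟩⟩
          rw [cv_mk (irr_cf (mem_I.1 hχ))]
          obtain ⟨y, hy⟩ := isConj_iff.1 hmg
          have e : g⁻¹ * (y * g * y⁻¹) = m := by rw [hy]; group
          refine vanish ⊥ (mem_I.1 hχ) (fun n hn g => by rw [Subgroup.mem_bot.1 hn, mul_one])
            (y := y) ?_ ?_
          · intro u
            rw [e, Subgroup.mem_center_iff.1 (hN hm) u]
            rw [Subgroup.mem_bot]
            group
          · rw [e]
            intro hk
            apply hχ3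
            rw [tr_iff]
            exact (hNz m hm hm1).trans (Subgroup.zpowers_le.2 hk)
        calc Nat.card {h : G // IsConj g h} ≤ _ := h6
          _ ≤ p * p ^ zc (ConjClasses.mk (QuotientGroup.mk g : G ⧸ N)) := Nat.mul_le_mul h7 h3
          _ = p ^ (zc (ConjClasses.mk (QuotientGroup.mk g : G ⧸ N)) + 1) := by rw [pow_succ]; ring
          _ ≤ p ^ zc (ConjClasses.mk g) := Nat.pow_le_pow_right hp.out.pos (by omega)
      · have h7 : Nat.card {n : N // IsConj g (g * n)} ≤ 1 := by
          rw [Finite.card_le_one_iff_subsingleton]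
          constructor
          rintro ⟨a, ha⟩ ⟨b, hb⟩
          have ha1 : (a : G) = 1 := by
            by_contra h
            exact hg ⟨a, a.2, h, ha⟩
          have hb1 : (b : G) = 1 := by
            by_contra h
            exact hg ⟨b, b.2, h, hb⟩
          apply Subtype.ext
          apply Subtype.ext
          rw [ha1, hb1]
        calc Nat.card {h : G // IsConj g h} ≤ _ := h6
          _ ≤ 1 * p ^ zc (ConjClasses.mk (QuotientGroup.mk g : G ⧸ N)) := Nat.mul_le_mul h7 h3
          _ = p ^ zc (ConjClasses.mk (QuotientGroup.mk g : G ⧸ N)) := one_mul _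
          _ ≤ p ^ zc (ConjClasses.mk g) := Nat.pow_le_pow_right hp.out.pos (by omega)

/-- **Column bound**: the size of a class is at most `p` to the number of zeros in its column. -/
theorem column_bound (p : ℕ) [hp : Fact p.Prime] (G : Type) [Group G] [Fintype G]
    (hG : IsPGroup p G) (g : G) : Nat.card {h : G // IsConj g h} ≤ p ^ zc (ConjClasses.mk g) :=
  column_aux p _ G hG le_rfl g

end Pool.Agent.X39.AZ
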