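import Pool.Agent.X39.AZ.Tr

set_option autoImplicit false
open CategoryTheory Pool.Agent.W367.SN

namespace Pool.Agent.X39.AZ

section count
variable {G : Type} [Group G]

/-- the number of classes -/
noncomputable def kk (G : Type) [Group G] : ℕ := Nat.card (ConjClasses G)

/-- the number of classes on which `χ` vanishes -/
noncomputable def zr (χ : G → ℂ) : ℕ := Nat.card {c : ConjClasses G // cv χ c = 0}

variable [Fintype G]

open Classical in
/-- the number of irreducible characters vanishing on the class `c` -/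
noncomputable def zc (c : ConjClasses G) : ℕ := ((I G).filter (fun χ => cv χ c = 0)).card

/-- the number of zeros of the character table -/
noncomputable def zz (G : Type) [Group G] [Fintype G] : ℕ := ∑ χ ∈ I G, zr χ

noncomputable instance fcc : Fintype (ConjClasses G) := Fintype.ofFinite _

lemma zr_eq (χ : G → ℂ) [DecidablePred (fun c : ConjClasses G => cv χ c = 0)] :
    zr χ = ((Finset.univ : Finset (ConjClasses G)).filter (fun c => cv χ c = 0)).card := by
  unfold zr
  rw [Nat.card_eq_fintype_card, Fintype.card_subtype]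

theorem zz_eq : zz G = ∑ c : ConjClasses G, zc c := by
  classical
  unfold zz zc
  simp only [zr_eq]
  exact Finset.sum_card_bipartiteAbove_eq_sum_card_bipartiteBelow (fun χ c => cv χ c = 0)

/-- zeros of `χ` against classes of `G / M` -/
theorem zr_add_fib (M : Subgroup G) [M.Normal] {χ : G → ℂ} (hχ : χ ∈ IrrC G) :
    kk (G ⧸ M) ≤ zr χ + (fib M χ).card := by
  classical
  have h1 := node_bound M hχ
  have hfin : Finite (ConjClasses (G ⧸ M)) := inferInstance
  have := Fintype.ofFinite (ConjClasses (G ⧸ M))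
  have h2 : Nat.card {c : ConjClasses (G ⧸ M) // ¬ ∃ g, nd M g = c ∧ χ g ≠ 0} ≤ zr χ := by
    unfold zr
    let f : {c : ConjClasses (G ⧸ M) // ¬ ∃ g, nd M g = c ∧ χ g ≠ 0} →
        {c : ConjClasses G // cv χ c = 0} := fun c =>
      ⟨ConjClasses.mk (nd_surj M c.1).choose, by
        rw [cv_mk (irr_cf hχ)]
        by_contra hne
        exact c.2 ⟨_, (nd_surj M c.1).choose_spec, hne⟩⟩
    refine Nat.card_le_card_of_injective f fun c d h => ?_
    have h3 : ConjClasses.mk (nd_surj M c.1).choose = ConjClasses.mk (nd_surj M d.1).choose :=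
      congrArg Subtype.val h
    rw [ConjClasses.mk_eq_mk_iff_isConj] at h3
    obtain ⟨u, hu⟩ := isConj_iff.1 h3
    apply Subtype.ext
    rw [← (nd_surj M c.1).choose_spec, ← (nd_surj M d.1).choose_spec, ← hu, nd_conj]
  have h3 : kk (G ⧸ M) = Nat.card {c : ConjClasses (G ⧸ M) // ∃ g, nd M g = c ∧ χ g ≠ 0} +
      Nat.card {c : ConjClasses (G ⧸ M) // ¬ ∃ g, nd M g = c ∧ χ g ≠ 0} := by
    unfold kk
    rw [← Nat.card_sum]
    exact (Nat.card_congr (Equiv.sumCompl _)).symm
  omega

/-- **Lemma R.** If at least half of the classes are inside `M`, then `G / M` has few classes. -/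
theorem lemR (M : Subgroup G) [M.Normal] (α : ℕ) (hz : zz G ≤ α * kk G)
    (ht : kk G ≤ 2 * Nat.card {c : ConjClasses G // Quotient.out c ∈ M}) :
    kk (G ⧸ M) ≤ 4 * α + 4 := by
  classical
  by_contra hlt
  push Not at hlt
  have h0 := classes_in_le M
  have hk : 0 < kk G := Nat.card_pos
  set J := (I G).image (nf M) with hJ
  have hcard : (I G).card = kk G := card_I
  -- the fibres
  have hsum : ∑ j ∈ J, ((I G).filter (fun ψ => nf M ψ = j)).card = kk G := by
    rw [← hcard]
    exact (Finset.card_eq_sum_card_image (nf M) (I G)).symm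
  set Js := J.filter (fun j => ((I G).filter (fun ψ => nf M ψ = j)).card ≤ 4) with hJs
  have h1 : 5 * (J.filter (fun j => ¬ ((I G).filter (fun ψ => nf M ψ = j)).card ≤ 4)).card ≤ kk G := by
    rw [← hsum, ← Finset.sum_filter_add_sum_filter_not J
      (fun j => ((I G).filter (fun ψ => nf M ψ = j)).card ≤ 4)]
    have : (J.filter (fun j => ¬ ((I G).filter (fun ψ => nf M ψ = j)).card ≤ 4)).card * 5 ≤
        ∑ j ∈ J.filter (fun j => ¬ ((I G).filter (fun ψ => nf M ψ = j)).card ≤ 4),
          ((I G).filter (fun ψ => nf M ψ = j)).card := by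
      rw [← smul_eq_mul]
      refine Finset.card_nsmul_le_sum _ _ _ fun j hj => ?_
      have := (Finset.mem_filter.1 hj).2
      omega
    omega
  have h2 : Js.card + (J.filter (fun j => ¬ ((I G).filter (fun ψ => nf M ψ = j)).card ≤ 4)).card =
      J.card := Finset.card_filter_add_card_filter_not _
  have h3 : kk G ≤ 4 * Js.card := by omega
  -- choose a member of each small fibre
  have h4 : Js.card * (kk (G ⧸ M) - 4) ≤ zz G := by
    have hpick : ∀ j ∈ Js, ∃ χ ∈ I G, nf M χ = j := fun j hj =>
      Finset.mem_image.1 (Finset.mem_filter.1 hj).1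
    choose! pk hpk1 hpk2 using hpick
    have hinj : Set.InjOn pk Js := fun a ha b hb hab => by
      rw [← hpk2 a ha, ← hpk2 b hb, hab]
    unfold zz
    calc Js.card * (kk (G ⧸ M) - 4) ≤ ∑ j ∈ Js, zr (pk j) := by
          rw [← smul_eq_mul]
          refine Finset.card_nsmul_le_sum _ _ _ fun j hj => ?_
          have h5 := zr_add_fib M (mem_I.1 (hpk1 j hj))
          have h6 : (fib M (pk j)).card ≤ 4 := by
            unfold fib
            rw [hpk2 j hj]
            exact (Finset.mem_filter.1 hj).2
          omega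
      _ = ∑ χ ∈ Js.image pk, zr χ := by
          rw [Finset.sum_image hinj]
      _ ≤ ∑ χ ∈ I G, zr χ := by
          refine Finset.sum_le_sum_of_subset fun χ hχ => ?_
          obtain ⟨j, hj, rfl⟩ := Finset.mem_image.1 hχ
          exact hpk1 j hj
  have h5 : 4 * α + 1 ≤ kk (G ⧸ M) - 4 := by omega
  have h6 : Js.card * (4 * α + 1) ≤ α * kk G := (Nat.mul_le_mul_left _ h5).trans (h4.trans hz)
  have h7 : α * kk G ≤ α * (4 * Js.card) := Nat.mul_le_mul_left _ h3
  have h8 : 0 < Js.card := by omega
  nlinarith

end count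

end Pool.Agent.X39.AZ
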