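import Pool.Agent.X39.AZ.KN

set_option autoImplicit false
open CategoryTheory Pool.Agent.W367.SN

namespace Pool.Agent.X39.AZ

section gw
variable {G : Type} [Group G] [Fintype G]

theorem many_zeros (p : ℕ) [hp : Fact p.Prime] (hG : IsPGroup p G) (T U : Subgroup G) [hT : T.Normal]
    [hU : U.Normal] (hTU : T ≤ U) (hK : 2 * (kq U * Nat.card U) ≤ 3 * (kq T * Nat.card T)) {x : G}
    (hx : x ∈ U) (hxT : ∃ y : G, x⁻¹ * (y * x * y⁻¹) ∉ T)
    [DecidablePred (fun χ : G → ℂ => χ x = 0)] :
    kk G ≤ 2 * Nat.card U * ((Pw T U).filter (fun χ => χ x = 0)).card := by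
  classical
  have hnil : Group.IsNilpotent G := hG.isNilpotent
  set R : Subgroup G := Subgroup.normalClosure (Set.range fun y : G => x⁻¹ * (y * x * y⁻¹)) with hR
  have hRn : R.Normal := Subgroup.normalClosure_normal
  have hRmem : ∀ y, x⁻¹ * (y * x * y⁻¹) ∈ R := fun y => Subgroup.subset_normalClosure ⟨y, rfl⟩
  set D : Subgroup G := T ⊔ R with hD
  have hDn : D.Normal := Subgroup.sup_normal T R
  set M : Subgroup G := T ⊔ ⁅D, (⊤ : Subgroup G)⁆ with hM
  have hCn : (⁅D, (⊤ : Subgroup G)⁆).Normal := Subgroup.commutator_normal D ⊤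
  have hMn : M.Normal := Subgroup.sup_normal T _
  have hTM : T ≤ M := le_sup_left
  have hTD : T ≤ D := le_sup_left
  have hMD : M ≤ D := sup_le le_sup_left (Subgroup.commutator_le_left D ⊤)
  have hDU : D ≤ U := by
    refine sup_le hTU (Subgroup.normalClosure_le_normal ?_)
    rintro _ ⟨y, rfl⟩
    exact U.mul_mem (U.inv_mem hx) (hU.conj_mem x hx y)
  have hne : M ≠ D := by
    intro h
    have h1 : D ≤ T := nil_le T D h.ge
    obtain ⟨y, hy⟩ := hxT
    exact hy (h1 ((le_sup_right : R ≤ D) (hRmem y)))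
  -- sizes
  have hsize : 2 * Nat.card M ≤ Nat.card D := by
    obtain ⟨q, hq⟩ := Subgroup.card_dvd_of_le hMD
    have hM0 : 0 < Nat.card M := Nat.card_pos
    have hD0 : 0 < Nat.card D := Nat.card_pos
    have hq0 : q ≠ 0 := by
      rintro rfl
      omega
    have hq1 : q ≠ 1 := by
      rintro rfl
      rw [mul_one] at hq
      exact hne (Subgroup.eq_of_le_of_card_ge hMD hq.le)
    have hq2 : 2 ≤ q := by omega
    rw [hq, mul_comm]
    exact Nat.mul_le_mul_left _ hq2
  have hDU' : Nat.card D ≤ Nat.card U := Subgroup.card_le_of_le hDU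
  -- the characters
  have hsub : Pw M D ⊆ (Pw T U).filter (fun χ => χ x = 0) := by
    intro χ hχ
    rw [mem_Pw] at hχ
    rw [Finset.mem_filter, mem_Pw]
    refine ⟨⟨hχ.1, hχ.2.1.mono hTM, fun h => hχ.2.2 (h.mono hDU)⟩, ?_⟩
    have h1 : ∃ y : G, x⁻¹ * (y * x * y⁻¹) ∉ Kr χ := by
      by_contra hcon
      push Not at hcon
      apply hχ.2.2
      rw [tr_iff]
      have hKn := Kr_normal (irr_cf (mem_I.1 hχ.1))
      refine sup_le (hχ.2.1.mono hTM) (Subgroup.normalClosure_le_normal ?_)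
      rintro _ ⟨y, rfl⟩
      exact hcon y
    obtain ⟨y, hy⟩ := h1
    refine vanish M (mem_I.1 hχ.1) hχ.2.1 (y := y) (fun g => ?_) hy
    have hc : x⁻¹ * (y * x * y⁻¹) ∈ D := (le_sup_right : R ≤ D) (hRmem y)
    have h2 : (x⁻¹ * (y * x * y⁻¹))⁻¹ * (g * (x⁻¹ * (y * x * y⁻¹)) * g⁻¹) ∈ ⁅D, (⊤ : Subgroup G)⁆ := by
      have h3 := Subgroup.commutator_mem_commutator (D.inv_mem hc) (Subgroup.mem_top g)
      rw [commutatorElement_def, inv_inv] at h3
      convert h3 using 1
      group
    exact (le_sup_right : ⁅D, (⊤ : Subgroup G)⁆ ≤ M) h2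
  have hcard := Finset.card_le_card hsub
  have h1 := card_Pw hMD
  have h2 : kq T * Nat.card T ≤ kq M * Nat.card M := K_mono hTM
  have h3 : kq D * Nat.card D ≤ kq U * Nat.card U := K_mono hDU
  have h4 := kk_le_K T
  set m := (Pw M D).card
  set cM := Nat.card M
  set cD := Nat.card D
  set cU := Nat.card U
  have h5 : kk G ≤ 2 * cD * m := by
    have h6 : (m + kq D) * cD = kq M * cD := by rw [h1]
    have h7 : kq M * (2 * cM) ≤ kq M * cD := Nat.mul_le_mul_left _ hsize
    nlinarith
  refine h5.trans ?_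
  exact Nat.mul_le_mul (Nat.mul_le_mul_left _ hDU') hcard

/-- many zeros in a good window -/
theorem good_window (p : ℕ) [hp : Fact p.Prime] (hG : IsPGroup p G) (A T U : Subgroup G) [hT : T.Normal]
    [hU : U.Normal] (hTU : T ≤ U) (hUA : U ≤ A) (hA : ∀ a ∈ A, ∀ b ∈ A, a * b = b * a) (b : ℕ)
    (hb : A.index ≤ b) (hK : 2 * (kq U * Nat.card U) ≤ 3 * (kq T * Nat.card T))
    (hx : ∃ x ∈ U, ∃ y : G, x⁻¹ * (y * x * y⁻¹) ∉ T) :
    kk G ≤ 4 * b * ∑ χ ∈ Pw T U, zr χ := by
  classical
  let X : Subgroup G := U ⊓ (Subgroup.center (G ⧸ T)).comap (QuotientGroup.mk' T)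
  have hXmem : ∀ x, x ∈ X ↔ x ∈ U ∧ ∀ y : G, x⁻¹ * (y * x * y⁻¹) ∈ T := by
    intro x
    rw [Subgroup.mem_inf, Subgroup.mem_comap, Subgroup.mem_center_iff]
    refine and_congr_right fun _ => ?_
    constructor
    · intro h y
      have h1 := h (QuotientGroup.mk y)
      rw [← QuotientGroup.eq]
      have h2 : (QuotientGroup.mk (y * x * y⁻¹) : G ⧸ T) =
        QuotientGroup.mk y * QuotientGroup.mk x * (QuotientGroup.mk y)⁻¹ := rfl
      have h3 : (QuotientGroup.mk y * QuotientGroup.mk x : G ⧸ T) =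
        QuotientGroup.mk x * QuotientGroup.mk y := h1
      rw [h2, h3, mul_inv_cancel_right]
    · intro h q
      obtain ⟨y, rfl⟩ := QuotientGroup.mk_surjective q
      have h1 := h y
      rw [← QuotientGroup.eq] at h1
      have h2 : (QuotientGroup.mk (y * x * y⁻¹) : G ⧸ T) =
        QuotientGroup.mk y * QuotientGroup.mk x * (QuotientGroup.mk y)⁻¹ := rfl
      rw [h2] at h1
      exact (eq_mul_inv_iff_mul_eq.1 h1).symm
  have hXU : X ≤ U := inf_le_left
  have hXne : X ≠ U := by
    intro h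
    obtain ⟨x, hx1, y, hy⟩ := hx
    rw [← h] at hx1
    exact hy (((hXmem x).1 hx1).2 y)
  have hsize : 2 * Nat.card X ≤ Nat.card U := by
    obtain ⟨q, hq⟩ := Subgroup.card_dvd_of_le hXU
    have hM0 : 0 < Nat.card X := Nat.card_pos
    have hD0 : 0 < Nat.card U := Nat.card_pos
    have hq0 : q ≠ 0 := by
      rintro rfl
      omega
    have hq1 : q ≠ 1 := by
      rintro rfl
      rw [mul_one] at hq
      exact hXne (Subgroup.eq_of_le_of_card_ge hXU hq.le)
    have hq2 : 2 ≤ q := by omega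
    rw [hq, mul_comm]
    exact Nat.mul_le_mul_left _ hq2
  let Y : Finset G := Finset.univ.filter (fun x => x ∈ U ∧ x ∉ X)
  have hY : Nat.card U ≤ 2 * Y.card := by
    have h1 : (Finset.univ.filter (fun x : G => x ∈ U)).card = Nat.card U := by
      rw [← Fintype.card_subtype, ← Nat.card_eq_fintype_card]
    have h2 : (Finset.univ.filter (fun x : G => x ∈ X)).card = Nat.card X := by
      rw [← Fintype.card_subtype, ← Nat.card_eq_fintype_card]
    have h3 : (Finset.univ.filter (fun x : G => x ∈ U)).card ≤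
        (Finset.univ.filter (fun x : G => x ∈ X)).card + Y.card := by
      refine le_trans (Finset.card_le_card ?_) (Finset.card_union_le _ _)
      intro x hx
      rw [Finset.mem_filter] at hx
      rw [Finset.mem_union, Finset.mem_filter, Finset.mem_filter]
      by_cases h : x ∈ X
      · exact Or.inl ⟨Finset.mem_univ _, h⟩
      · exact Or.inr ⟨Finset.mem_univ _, hx.2, h⟩
    omega
  have hYc := card_le_classes Y b (fun x hx => by
    have hx := (Finset.mem_filter.1 hx).2
    exact (class_size_le A hA (hUA hx.1)).trans hb)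
  have hsum : ∑ χ ∈ Pw T U, zr χ =
      ∑ c : ConjClasses G, ((Pw T U).filter (fun χ => cv χ c = 0)).card := by
    simp only [zr_eq]
    exact Finset.sum_card_bipartiteAbove_eq_sum_card_bipartiteBelow (fun χ c => cv χ c = 0)
  have hlow : (Y.image ConjClasses.mk).card * kk G ≤ 2 * Nat.card U * ∑ χ ∈ Pw T U, zr χ := by
    rw [hsum]
    calc (Y.image ConjClasses.mk).card * kk G = ∑ c ∈ Y.image ConjClasses.mk, kk G := by
          rw [Finset.sum_const, smul_eq_mul]
      _ ≤ ∑ c ∈ Y.image ConjClasses.mk, 2 * Nat.card U *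
            ((Pw T U).filter (fun χ => cv χ c = 0)).card := by
          refine Finset.sum_le_sum fun c hc => ?_
          obtain ⟨x, hx, rfl⟩ := Finset.mem_image.1 hc
          have hx := (Finset.mem_filter.1 hx).2
          have hxT : ∃ y : G, x⁻¹ * (y * x * y⁻¹) ∉ T := by
            by_contra hcon
            push Not at hcon
            exact hx.2 ((hXmem x).2 ⟨hx.1, hcon⟩)
          refine (many_zeros p hG T U hTU hK hx.1 hxT).trans ?_
          refine Nat.mul_le_mul_left _ (Finset.card_le_card fun χ hχ => ?_)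
          rw [Finset.mem_filter] at hχ ⊢
          refine ⟨hχ.1, ?_⟩
          rw [cv_mk (irr_cf (mem_I.1 (mem_Pw.1 hχ.1).1))]
          exact hχ.2
      _ = 2 * Nat.card U * ∑ c ∈ Y.image ConjClasses.mk,
            ((Pw T U).filter (fun χ => cv χ c = 0)).card := by rw [Finset.mul_sum]
      _ ≤ _ := by
          refine Nat.mul_le_mul_left _ (Finset.sum_le_sum_of_subset (Finset.subset_univ _))
  set im := (Y.image ConjClasses.mk).card
  set sz := ∑ χ ∈ Pw T U, zr χ
  have hU0 : 0 < Nat.card U := Nat.card_pos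
  have h1 : Nat.card U * kk G ≤ Nat.card U * (4 * b * sz) := by
    calc Nat.card U * kk G ≤ (2 * (b * im)) * kk G :=
          Nat.mul_le_mul_right _ (hY.trans (Nat.mul_le_mul_left _ hYc))
      _ = 2 * b * (im * kk G) := by ring
      _ ≤ 2 * b * (2 * Nat.card U * sz) := Nat.mul_le_mul_left _ hlow
      _ = Nat.card U * (4 * b * sz) := by ring
  exact Nat.le_of_mul_le_mul_left h1 hU0

end gw

end Pool.Agent.X39.AZ
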