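import Pool.Agent.X39.AZ.Nil

set_option autoImplicit false
open CategoryTheory Pool.Agent.W367.SN

namespace Pool.Agent.X39.AZ

section kn
variable {G : Type} [Group G] [Fintype G]

open Classical in
/-- the number of irreducible characters trivial on `N` -/
noncomputable def kq (N : Subgroup G) : ℕ := ((I G).filter (Tr N)).card

lemma kq_eq (N : Subgroup G) [N.Normal] : kq N = kk (G ⧸ N) := by
  classical
  unfold kq kk
  exact card_Tr N

/-- `k(G/N)|N|` is monotone -/
theorem K_mono {N N' : Subgroup G} [N.Normal] [N'.Normal] (h : N ≤ N') :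
    kq N * Nat.card N ≤ kq N' * Nat.card N' := by
  classical
  rw [kq_eq, kq_eq]
  unfold kk
  rw [← Nat.card_prod, ← Nat.card_prod]
  let rep : ConjClasses (G ⧸ N') → G := fun d => (nd_surj N' d).choose
  have hrep : ∀ d, nd N' (rep d) = d := fun d => (nd_surj N' d).choose_spec
  -- the data
  have hdata : ∀ c : ConjClasses (G ⧸ N), ∃ d : ConjClasses (G ⧸ N'), ∃ m : N',
      nd N (rep d * m) = c := by
    intro c
    obtain ⟨g, rfl⟩ := nd_surj N c
    refine ⟨nd N' g, ?_⟩
    have h1 : nd N' g = nd N' (rep (nd N' g)) := (hrep _).symm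
    unfold nd at h1
    rw [ConjClasses.mk_eq_mk_iff_isConj] at h1
    obtain ⟨q, hq⟩ := isConj_iff.1 h1
    obtain ⟨u, rfl⟩ := QuotientGroup.mk_surjective q
    have h2 : (QuotientGroup.mk (rep (nd N' g)) : G ⧸ N') = QuotientGroup.mk (u * g * u⁻¹) := hq.symm
    rw [QuotientGroup.eq] at h2
    refine ⟨⟨_, h2⟩, ?_⟩
    change nd N (rep (nd N' g) * ((rep (nd N' g))⁻¹ * (u * g * u⁻¹))) = _
    rw [mul_inv_cancel_left, nd_conj]
  choose dd mm hdm using hdata
  let f : ConjClasses (G ⧸ N) × N → ConjClasses (G ⧸ N') × N' := fun x =>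
    (dd x.1, mm x.1 * ⟨x.2, h x.2.2⟩)
  refine Nat.card_le_card_of_injective f ?_
  rintro ⟨c, n⟩ ⟨c', n'⟩ hcc
  have h1 : dd c = dd c' := congrArg Prod.fst hcc
  have h2 : ((mm c : N') : G) * n = (mm c' : N') * n' := by
    have := congrArg (fun x => ((x.2 : N') : G)) hcc
    exact this
  have h3 : ∀ c : ConjClasses (G ⧸ N), ∀ n : N, nd N (rep (dd c) * (mm c * n)) = c := by
    intro c n
    rw [← mul_assoc, nd_mul N _ n.2, hdm]
  have h4 : c = c' := by
    rw [← h3 c n, ← h3 c' n', h1, h2]
  subst h4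
  have h5 : n = n' := Subtype.ext (mul_left_cancel h2)
  rw [h5]

lemma kq_bot : kq (⊥ : Subgroup G) = kk G := by
  classical
  unfold kq kk
  rw [← card_I]
  congr 1
  refine Finset.filter_true_of_mem fun χ _ => ?_
  intro n hn g
  rw [Subgroup.mem_bot.1 hn, mul_one]

lemma kk_le_K (N : Subgroup G) [N.Normal] : kk G ≤ kq N * Nat.card N := by
  have h := K_mono (G := G) (N := ⊥) (N' := N) bot_le
  rwa [kq_bot, Subgroup.card_bot, mul_one] at h

lemma K_le_card (N : Subgroup G) [N.Normal] : kq N * Nat.card N ≤ Nat.card G := by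
  have h := K_mono (G := G) (N := N) (N' := ⊤) le_top
  refine h.trans ?_
  rw [Subgroup.card_top]
  have h1 : kq (⊤ : Subgroup G) = 1 := by
    rw [kq_eq]
    unfold kk
    have : Subsingleton (G ⧸ (⊤ : Subgroup G)) := QuotientGroup.subsingleton_quotient_top
    have h2 : Subsingleton (ConjClasses (G ⧸ (⊤ : Subgroup G))) := by
      constructor
      intro a b
      obtain ⟨a, rfl⟩ := ConjClasses.mk_surjective a
      obtain ⟨b, rfl⟩ := ConjClasses.mk_surjective b
      rw [Subsingleton.elim a b]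
    exact Nat.card_eq_one_iff_unique.2 ⟨h2, ⟨ConjClasses.mk 1⟩⟩
  rw [h1, one_mul]

lemma kq_anti {N N' : Subgroup G} (h : N ≤ N') : kq N' ≤ kq N := by
  classical
  unfold kq
  refine Finset.card_le_card fun χ hχ => ?_
  rw [Finset.mem_filter] at hχ ⊢
  exact ⟨hχ.1, hχ.2.mono h⟩

open Classical in
/-- characters trivial on `T` but not on `U` -/
noncomputable def Pw (T U : Subgroup G) : Finset (G → ℂ) :=
  (I G).filter (fun χ => Tr T χ ∧ ¬ Tr U χ)

lemma mem_Pw {T U : Subgroup G} {χ : G → ℂ} : χ ∈ Pw T U ↔ χ ∈ I G ∧ Tr T χ ∧ ¬ Tr U χ := by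
  classical
  unfold Pw
  rw [Finset.mem_filter]

lemma card_Pw {T U : Subgroup G} (h : T ≤ U) : (Pw T U).card + kq U = kq T := by
  classical
  unfold Pw kq
  rw [← Finset.card_filter_add_card_filter_not (s := (I G).filter (Tr T)) (fun χ => Tr U χ),
    Finset.filter_filter, Finset.filter_filter, add_comm]
  congr 2
  refine Finset.filter_congr fun χ _ => ?_
  constructor
  · intro h1
    exact ⟨h1.mono h, h1⟩
  · exact fun h1 => h1.2

end kn

section sizes
variable {G : Type} [Group G] [Finite G]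

/-- classes inside an abelian subgroup are small -/
theorem class_size_le (A : Subgroup G) (hA : ∀ a ∈ A, ∀ b ∈ A, a * b = b * a) {x : G} (hx : x ∈ A) :
    Nat.card {h : G // IsConj x h} ≤ A.index := by
  classical
  have hwd : ∀ u u' : G, u⁻¹ * u' ∈ A → u * x * u⁻¹ = u' * x * u'⁻¹ := by
    intro u u' h
    have h1 := hA _ h _ hx
    have e : u' * x * u'⁻¹ = u * ((u⁻¹ * u') * x) * u'⁻¹ := by group
    rw [e, h1]
    group
  let f : G ⧸ A → {h : G // IsConj x h} := fun q =>
    ⟨Quotient.out q * x * (Quotient.out q)⁻¹, isConj_iff.2 ⟨_, rfl⟩⟩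
  have hf : Function.Surjective f := by
    rintro ⟨h, hh⟩
    obtain ⟨u, rfl⟩ := isConj_iff.1 hh
    refine ⟨QuotientGroup.mk u, Subtype.ext ?_⟩
    change Quotient.out (QuotientGroup.mk u : G ⧸ A) * x * (Quotient.out (QuotientGroup.mk u : G ⧸ A))⁻¹ = _
    apply hwd
    rw [← QuotientGroup.eq]
    exact QuotientGroup.out_eq' _
  exact Nat.card_le_card_of_surjective f hf

/-- the index of the centraliser of an element is the class size -/
theorem index_centralizer_le (x : G) :
    (Subgroup.centralizer ({x} : Set G)).index ≤ Nat.card {h : G // IsConj x h} := by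
  classical
  let f : G ⧸ Subgroup.centralizer ({x} : Set G) → {h : G // IsConj x h} := fun q =>
    ⟨Quotient.out q * x * (Quotient.out q)⁻¹, isConj_iff.2 ⟨_, rfl⟩⟩
  refine Nat.card_le_card_of_injective f ?_
  intro q q' h
  have h1 : Quotient.out q * x * (Quotient.out q)⁻¹ = Quotient.out q' * x * (Quotient.out q')⁻¹ :=
    congrArg Subtype.val h
  rw [← QuotientGroup.out_eq' q, ← QuotientGroup.out_eq' q', QuotientGroup.eq]
  rw [Subgroup.mem_centralizer_singleton_iff]
  calc (Quotient.out q)⁻¹ * Quotient.out q' * x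
      = (Quotient.out q)⁻¹ * (Quotient.out q' * x * (Quotient.out q')⁻¹) * Quotient.out q' := by group
    _ = (Quotient.out q)⁻¹ * (Quotient.out q * x * (Quotient.out q)⁻¹) * Quotient.out q' := by rw [h1]
    _ = x * ((Quotient.out q)⁻¹ * Quotient.out q') := by group

omit [Finite G] in
/-- counting classes in a set of elements with small classes -/
theorem card_le_classes [Fintype G] (Y : Finset G) (b : ℕ)
    (hY : ∀ x ∈ Y, Nat.card {h : G // IsConj x h} ≤ b) [DecidableEq (ConjClasses G)] :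
    Y.card ≤ b * (Y.image (ConjClasses.mk)).card := by
  classical
  refine Finset.card_le_mul_card_image Y _ fun c hc => ?_
  obtain ⟨x, hx, rfl⟩ := Finset.mem_image.1 hc
  refine le_trans ?_ (hY x hx)
  rw [Nat.card_eq_fintype_card, Fintype.card_subtype]
  refine Finset.card_le_card fun y hy => ?_
  rw [Finset.mem_filter] at hy ⊢
  exact ⟨Finset.mem_univ _, ConjClasses.mk_eq_mk_iff_isConj.1 hy.2.symm⟩

end sizes

end Pool.Agent.X39.AZ
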