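import Pool.Agent.X39.AZ.Col

set_option autoImplicit false
open CategoryTheory Pool.Agent.W367.SN

namespace Pool.Agent.X39.AZ

lemma exists_Z2 (p : ℕ) [hp : Fact p.Prime] (Q : Type) [Group Q] [Finite Q] (hQ : IsPGroup p Q)
    (hna : commutator Q ≠ ⊥) : ∃ (x : Q) (φ : Q →* Subgroup.center Q),
      (∀ g, (φ g : Q) = g * x * g⁻¹ * x⁻¹) ∧ x ∉ Subgroup.center Q := by
  have hZ : Subgroup.center Q ≠ ⊤ := by
    intro h
    apply hna
    rw [eq_bot_iff]
    rw [commutator_def, Subgroup.commutator_le]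
    intro a _ b _
    rw [Subgroup.mem_bot, commutatorElement_eq_one_iff_mul_comm]
    have : b ∈ Subgroup.center Q := by rw [h]; trivial
    exact Subgroup.mem_center_iff.1 this a
  have hnt : Nontrivial (Q ⧸ Subgroup.center Q) := QuotientGroup.nontrivial_iff.2 hZ
  have hc : Nontrivial (Subgroup.center (Q ⧸ Subgroup.center Q)) :=
    (hQ.to_quotient _).center_nontrivial
  obtain ⟨⟨q, hq⟩, hq1⟩ := exists_ne (1 : Subgroup.center (Q ⧸ Subgroup.center Q))
  obtain ⟨x, rfl⟩ := QuotientGroup.mk_surjective q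
  have hx : x ∉ Subgroup.center Q := by
    intro h
    apply hq1
    apply Subtype.ext
    exact (QuotientGroup.eq_one_iff x).2 h
  have hcen : ∀ g, g * x * g⁻¹ * x⁻¹ ∈ Subgroup.center Q := by
    intro g
    have h1 := Subgroup.mem_center_iff.1 hq (QuotientGroup.mk g)
    rw [← QuotientGroup.eq_one_iff]
    have h2 : (QuotientGroup.mk (g * x * g⁻¹ * x⁻¹) : Q ⧸ Subgroup.center Q) =
        (QuotientGroup.mk g * QuotientGroup.mk x) * (QuotientGroup.mk g)⁻¹ * (QuotientGroup.mk x)⁻¹ := rfl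
    rw [h2, h1]
    group
  let φ : Q →* Subgroup.center Q :=
    { toFun := fun g => ⟨g * x * g⁻¹ * x⁻¹, hcen g⟩
      map_one' := by
        apply Subtype.ext
        simp
      map_mul' := fun g h => by
        apply Subtype.ext
        have h1 := Subgroup.mem_center_iff.1 (hcen h)
        change g * h * x * (g * h)⁻¹ * x⁻¹ = (g * x * g⁻¹ * x⁻¹) * (h * x * h⁻¹ * x⁻¹)
        calc g * h * x * (g * h)⁻¹ * x⁻¹ = g * (h * x * h⁻¹ * x⁻¹) * (x * g⁻¹ * x⁻¹) := by group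
          _ = (h * x * h⁻¹ * x⁻¹) * g * (x * g⁻¹ * x⁻¹) := by rw [h1 g]
          _ = (h * x * h⁻¹ * x⁻¹) * (g * x * g⁻¹ * x⁻¹) := by group
          _ = (g * x * g⁻¹ * x⁻¹) * (h * x * h⁻¹ * x⁻¹) := (h1 _).symm }
  exact ⟨x, φ, fun g => rfl, hx⟩

lemma supp_aux (p : ℕ) [hp : Fact p.Prime] {G : Type} [Group G] [Finite G] (hG : IsPGroup p G)
    (K : Subgroup G) [hK : K.Normal] (hn : ¬ commutator G ≤ K) : ∃ (x : G) (Y : Subgroup G),
      commutator G ≤ Y ∧ Y ≠ ⊤ ∧ ∀ g, g ∉ Y → g⁻¹ * (x * g * x⁻¹) ∉ K ∧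
        ∀ u, (g⁻¹ * (x * g * x⁻¹))⁻¹ * (u * (g⁻¹ * (x * g * x⁻¹)) * u⁻¹) ∈ K := by
  have hna : commutator (G ⧸ K) ≠ ⊥ := by
    intro h
    apply hn
    have h1 : (commutator G).map (QuotientGroup.mk' K) ≤ commutator (G ⧸ K) := by
      rw [commutator_def, Subgroup.map_commutator, commutator_def]
      exact Subgroup.commutator_mono le_top le_top
    rw [h, le_bot_iff, Subgroup.map_eq_bot_iff, QuotientGroup.ker_mk'] at h1
    exact h1
  obtain ⟨xq, φ, hφ, hx⟩ := exists_Z2 p (G ⧸ K) (hG.to_quotient _) hna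
  obtain ⟨x, rfl⟩ := QuotientGroup.mk_surjective xq
  let ψ : G →* Subgroup.center (G ⧸ K) := φ.comp (QuotientGroup.mk' K)
  have hψ1 : ∀ g, ((ψ g : Subgroup.center (G ⧸ K)) : G ⧸ K) =
      QuotientGroup.mk (g * x * g⁻¹ * x⁻¹) := fun g => hφ (QuotientGroup.mk g)
  have hψ : ∀ g, g ∈ ψ.ker ↔ g⁻¹ * (x * g * x⁻¹) ∈ K := by
    intro g
    rw [MonoidHom.mem_ker, ← Subtype.coe_inj]
    rw [hψ1, OneMemClass.coe_one, QuotientGroup.eq_one_iff]
    constructor
    · intro h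
      have h2 := hK.conj_mem _ (K.inv_mem h) (g⁻¹)
      have e : g⁻¹ * (g * x * g⁻¹ * x⁻¹)⁻¹ * g⁻¹⁻¹ = g⁻¹ * (x * g * x⁻¹) := by group
      rwa [e] at h2
    · intro h
      have h2 := K.inv_mem (hK.conj_mem _ h g)
      have e : (g * (g⁻¹ * (x * g * x⁻¹)) * g⁻¹)⁻¹ = g * x * g⁻¹ * x⁻¹ := by group
      rwa [e] at h2
  have hcom : commutator G ≤ ψ.ker := by
    rw [commutator_def, Subgroup.commutator_le]
    intro a _ b _
    rw [MonoidHom.mem_ker, map_commutatorElement, commutatorElement_eq_one_iff_mul_comm]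
    apply Subtype.ext
    exact Subgroup.mem_center_iff.1 (ψ b).2 (ψ a : G ⧸ K)
  refine ⟨x, ψ.ker, hcom, ?_, ?_⟩
  · intro h
    apply hx
    rw [Subgroup.mem_center_iff]
    intro q
    obtain ⟨g, rfl⟩ := QuotientGroup.mk_surjective q
    have h1 : g ∈ ψ.ker := by rw [h]; trivial
    rw [MonoidHom.mem_ker, ← Subtype.coe_inj, hψ1, OneMemClass.coe_one] at h1
    have h2 : (QuotientGroup.mk g * QuotientGroup.mk x) * (QuotientGroup.mk g)⁻¹ * (QuotientGroup.mk x)⁻¹ =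
      (1 : G ⧸ K) := h1
    have h3 := mul_inv_eq_one.1 h2
    exact mul_inv_eq_iff_eq_mul.1 h3
  · intro g hg
    rw [hψ] at hg
    refine ⟨hg, fun u => ?_⟩
    -- centrality modulo the kernel
    have h1 : (QuotientGroup.mk (g * x * g⁻¹ * x⁻¹) : G ⧸ K) ∈ Subgroup.center (G ⧸ K) := by
      rw [← hψ1]
      exact (ψ g).2
    have h2 : (QuotientGroup.mk (g⁻¹ * (x * g * x⁻¹)) : G ⧸ K) ∈ Subgroup.center (G ⧸ K) := by
      have e : g⁻¹ * (x * g * x⁻¹) = g⁻¹ * (g * x * g⁻¹ * x⁻¹)⁻¹ * g := by group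
      have h3 : (QuotientGroup.mk (g⁻¹ * (g * x * g⁻¹ * x⁻¹)⁻¹ * g) : G ⧸ K) =
          (QuotientGroup.mk g)⁻¹ * (QuotientGroup.mk (g * x * g⁻¹ * x⁻¹))⁻¹ * QuotientGroup.mk g := rfl
      rw [e, h3]
      have h4 := Subgroup.mem_center_iff.1 ((Subgroup.center (G ⧸ K)).inv_mem h1)
        ((QuotientGroup.mk g)⁻¹)
      rw [h4, inv_mul_cancel_right]
      exact (Subgroup.center (G ⧸ K)).inv_mem h1
    have h3 := Subgroup.mem_center_iff.1 h2 (QuotientGroup.mk u)
    rw [← QuotientGroup.eq]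
    have h4 : (QuotientGroup.mk (u * (g⁻¹ * (x * g * x⁻¹)) * u⁻¹) : G ⧸ K) =
        QuotientGroup.mk u * QuotientGroup.mk (g⁻¹ * (x * g * x⁻¹)) * (QuotientGroup.mk u)⁻¹ := rfl
    rw [h4, h3, mul_inv_cancel_right]

/-- a nonlinear character vanishes off a proper subgroup containing the commutator subgroup -/
theorem nonlin_support (p : ℕ) [hp : Fact p.Prime] (G : Type) [Group G] [Fintype G]
    (hG : IsPGroup p G) {χ : G → ℂ} (hχ : χ ∈ IrrC G) (hn : ¬ Tr (commutator G) χ) :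
    ∃ Y : Subgroup G, commutator G ≤ Y ∧ Y ≠ ⊤ ∧ ∀ g, g ∉ Y → χ g = 0 := by
  have hK := Kr_normal (irr_cf hχ)
  obtain ⟨x, Y, hY1, hY2, hY3⟩ := supp_aux p hG (Kr χ) hn
  refine ⟨Y, hY1, hY2, fun g hg => ?_⟩
  exact vanish (Kr χ) hχ (fun n hn g => hn g) (y := x) (hY3 g hg).2 (hY3 g hg).1

/-- a nonlinear character has at least `|G : G'| / 2` zeros -/
theorem nonlin_zeros (p : ℕ) [hp : Fact p.Prime] (G : Type) [Group G] [Fintype G]
    (hG : IsPGroup p G) {χ : G → ℂ} (hχ : χ ∈ IrrC G) (hn : ¬ Tr (commutator G) χ) :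
    Nat.card (G ⧸ commutator G) ≤ 2 * zr χ := by
  classical
  obtain ⟨Y, hY1, hY2, hY3⟩ := nonlin_support p G hG hχ hn
  let π := QuotientGroup.mk' (commutator G)
  let Z := Y.map π
  have hZc : Z.comap π = Y := by
    rw [Subgroup.comap_map_eq, QuotientGroup.ker_mk', sup_eq_left]
    exact hY1
  have hZ : Z ≠ ⊤ := by
    intro h
    apply hY2
    rw [← hZc, h, Subgroup.comap_top]
  have hidx : 2 ≤ Z.index := by
    have h1 : Z.index ≠ 1 := fun h => hZ (Subgroup.index_eq_one.1 h)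
    have h2 : Z.index ≠ 0 := Subgroup.index_ne_zero_of_finite
    omega
  have hcard := Z.card_mul_index
  have h1 : Nat.card {q : G ⧸ commutator G // q ∉ Z} ≤ zr χ := by
    unfold zr
    let r : (G ⧸ commutator G) → G := fun q => (QuotientGroup.mk_surjective q).choose
    have hr : ∀ q, (QuotientGroup.mk (r q) : G ⧸ commutator G) = q :=
      fun q => (QuotientGroup.mk_surjective q).choose_spec
    have hrY : ∀ q, q ∉ Z → r q ∉ Y := by
      intro q hq h
      apply hq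
      rw [← hr q]
      exact Subgroup.mem_map_of_mem π h
    refine Nat.card_le_card_of_injective (fun q : {q : G ⧸ commutator G // q ∉ Z} =>
      (⟨ConjClasses.mk (r q.1), by rw [cv_mk (irr_cf hχ)]; exact hY3 _ (hrY _ q.2)⟩ :
        {c : ConjClasses G // cv χ c = 0})) ?_
    intro q q' h
    have h2 : ConjClasses.mk (r q.1) = ConjClasses.mk (r q'.1) := congrArg Subtype.val h
    rw [ConjClasses.mk_eq_mk_iff_isConj] at h2
    obtain ⟨u, hu⟩ := isConj_iff.1 h2
    apply Subtype.ext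
    rw [← hr q.1, ← hr q'.1, ← hu]
    have : (QuotientGroup.mk (u * r q.1 * u⁻¹) : G ⧸ commutator G) =
        QuotientGroup.mk u * QuotientGroup.mk (r q.1) * (QuotientGroup.mk u)⁻¹ := rfl
    rw [this]
    have hcomm : ∀ a b : G ⧸ commutator G, a * b = b * a := by
      intro a b
      obtain ⟨a, rfl⟩ := QuotientGroup.mk_surjective a
      obtain ⟨b, rfl⟩ := QuotientGroup.mk_surjective b
      change (QuotientGroup.mk (a * b) : G ⧸ commutator G) = QuotientGroup.mk (b * a)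
      rw [QuotientGroup.eq]
      have h5 := Abelianization.commutator_subset_ker (Abelianization.of (G := G))
      rw [← Abelianization.ker_of G, MonoidHom.mem_ker]
      rw [map_mul, map_inv, map_mul, map_mul, mul_comm (Abelianization.of b), inv_mul_cancel]
    rw [hcomm (QuotientGroup.mk u), mul_inv_cancel_right]
  have h2 : Nat.card (G ⧸ commutator G) = Nat.card Z + Nat.card {q : G ⧸ commutator G // q ∉ Z} := by
    rw [← Nat.card_sum]
    exact (Nat.card_congr (Equiv.sumCompl (fun q => q ∈ Z))).symm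
  have h3 : Nat.card Z * 2 ≤ Nat.card (G ⧸ commutator G) := by
    rw [← hcard]
    exact Nat.mul_le_mul_left _ hidx
  omega

end Pool.Agent.X39.AZ
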