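import Pool.Agent.X39.AZ.CaseB

set_option autoImplicit false
open CategoryTheory Pool.Agent.W367.SN

namespace Pool.Agent.X39.AZ

/-- the bound on `k(G)` in case A -/
noncomputable def fA (a : ℝ) : ℕ :=
  ⌈((4 * ⌈a⌉₊ : ℕ) : ℝ) * ((((4 * ⌈a⌉₊ : ℕ) : ℝ) + 1) * ((4 * ⌈a⌉₊ : ℕ) : ℝ)) / (⌊a⌋ + 1 - a)⌉₊

/-- the final bound -/
noncomputable def fF (a : ℝ) : ℝ := ((fA a ^ fA a + BB ⌈a⌉₊ : ℕ) : ℝ)

lemma cv_iff {G : Type} [Group G] {χ : G → ℂ} (hχ : χ ∈ IrrC G) (c : ConjClasses G) :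
    (∀ g ∈ c.carrier, χ g = 0) ↔ cv χ c = 0 := by
  constructor
  · intro h
    exact h _ (ConjClasses.mem_carrier_iff_mk_eq.2 (mk_out c))
  · intro h g hg
    rw [ConjClasses.mem_carrier_iff_mk_eq] at hg
    rw [← hg, cv_mk (irr_cf hχ)] at h
    exact h

theorem card_pairs {G : Type} [Group G] [Fintype G] :
    Nat.card {q : IrrC G × ConjClasses G // ∀ g ∈ q.2.carrier, (q.1 : G → ℂ) g = 0} = zz G := by
  classical
  let e : {q : IrrC G × ConjClasses G // ∀ g ∈ q.2.carrier, (q.1 : G → ℂ) g = 0} ≃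
      Σ χ : {χ // χ ∈ I G}, {c : ConjClasses G // cv χ.1 c = 0} :=
    { toFun := fun q => ⟨⟨q.1.1.1, mem_I.2 q.1.1.2⟩, ⟨q.1.2, (cv_iff q.1.1.2 _).1 q.2⟩⟩
      invFun := fun s => ⟨(⟨s.1.1, mem_I.1 s.1.2⟩, s.2.1), (cv_iff (mem_I.1 s.1.2) _).2 s.2.2⟩
      left_inv := fun q => rfl
      right_inv := fun s => rfl }
  rw [Nat.card_congr e, Nat.card_sigma]
  unfold zz zr
  exact Finset.sum_coe_sort (I G) (fun χ => Nat.card {c : ConjClasses G // cv χ c = 0})

theorem card_irr {G : Type} [Group G] [Fintype G] : Nat.card (IrrC G) = kk G := by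
  have h : Nat.card (IrrC G) = Nat.card {χ // χ ∈ I G} :=
    Nat.card_congr (Equiv.subtypeEquivRight fun χ => mem_I.symm)
  rw [h, Nat.card_eq_fintype_card, Fintype.card_coe, card_I]
  rfl

theorem main (p : ℕ) (hp : p.Prime) (G : Type) [Group G] [Fintype G] (hG : IsPGroup p G)
    (hna : ∃ a b : G, a * b ≠ b * a) (a : ℝ) (ha : (zz G : ℝ) = a * kk G) :
    (Nat.card G : ℝ) ≤ fF a := by
  have hpf : Fact p.Prime := ⟨hp⟩
  obtain ⟨x, y, hxy⟩ := hna
  have hnt : Nontrivial G := ⟨⟨x * y, y * x, hxy⟩⟩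
  have hk : 0 < kk G := Nat.card_pos
  have hkR : (0 : ℝ) < kk G := by exact_mod_cast hk
  have hz : zz G ≤ ⌈a⌉₊ * kk G := by
    have h1 : (zz G : ℝ) ≤ (⌈a⌉₊ : ℝ) * kk G := by
      rw [ha]
      exact mul_le_mul_of_nonneg_right (Nat.le_ceil a) hkR.le
    exact_mod_cast h1
  have hNL : (NL G).Nonempty := by
    rw [← Finset.card_pos]
    have h1 := card_NL (G := G)
    have h2 : kk (G ⧸ commutator G) = Nat.card (G ⧸ commutator G) := kk_comm quot_comm
    have h3 : kk (G ⧸ commutator G) < kk G := by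
      refine kk_lt _ ?_
      intro h
      apply hxy
      have h4 := Subgroup.commutator_mem_commutator (Subgroup.mem_top x) (Subgroup.mem_top y)
      rw [← commutator_def, h, Subgroup.mem_bot, commutatorElement_eq_one_iff_mul_comm] at h4
      exact h4
    omega
  have hmain : Nat.card G ≤ fA a ^ fA a + BB ⌈a⌉₊ := by
    rcases step1 p hG ⌈a⌉₊ hz with h | h
    · have h1 := caseA hNL a ha (4 * ⌈a⌉₊) h
      have h2 : kk G ≤ fA a := by
        have h3 : (kk G : ℝ) ≤ (fA a : ℝ) := h1.trans (Nat.le_ceil _)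
        exact Nat.cast_le.1 h3
      have h3 := card_le_kk_pow p G hG
      have h4 : kk G ^ kk G ≤ fA a ^ fA a :=
        (Nat.pow_le_pow_left h2 _).trans (Nat.pow_le_pow_right (hk.trans_le h2) h2)
      omega
    · have h1 := caseB p hG ⌈a⌉₊ hz h
      omega
  unfold fF
  exact_mod_cast hmain

end Pool.Agent.X39.AZ
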