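import Pool.Agent.X39.AZ.PG

set_option autoImplicit false
open CategoryTheory Pool.Agent.W367.SN

namespace Pool.Agent.X39.AZ

section nil

theorem coatom_props (p : ℕ) [hp : Fact p.Prime] {P : Type} [Group P] [Finite P] (hP : IsPGroup p P)
    (M : Subgroup P) (hM : IsCoatom M) : commutator P ≤ M ∧ ∀ x : P, x ^ p ∈ M := by
  have hnil : Group.IsNilpotent P := hP.isNilpotent
  have hMn : M.Normal := Subgroup.NormalizerCondition.normal_of_coatom M
    Group.normalizerCondition_of_isNilpotent hM
  have hnt : Nontrivial (P ⧸ M) := QuotientGroup.nontrivial_iff.2 hM.1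
  obtain ⟨N, hN, hNc, z, hz, hz1, -⟩ := exists_central p (P ⧸ M) (hP.to_quotient M)
  have hNtop : N = ⊤ := by
    have h1 : M ≤ N.comap (QuotientGroup.mk' M) := by
      intro m hm
      rw [Subgroup.mem_comap]
      have : QuotientGroup.mk' M m = 1 := (QuotientGroup.eq_one_iff m).2 hm
      rw [this]
      exact N.one_mem
    have h2 : M ≠ N.comap (QuotientGroup.mk' M) := by
      intro h
      obtain ⟨x, rfl⟩ := QuotientGroup.mk_surjective z
      have h3 : x ∈ N.comap (QuotientGroup.mk' M) := hz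
      rw [← h] at h3
      exact hz1 ((QuotientGroup.eq_one_iff x).2 h3)
    have h3 := hM.2 _ (lt_of_le_of_ne h1 h2)
    rw [← Subgroup.map_comap_eq_self_of_surjective (QuotientGroup.mk'_surjective M) N, h3,
      Subgroup.map_top_of_surjective _ (QuotientGroup.mk'_surjective M)]
  have hcard : Nat.card (P ⧸ M) = p := by
    rw [← hNc, hNtop, Subgroup.card_top]
  constructor
  · rw [commutator_def, Subgroup.commutator_le]
    intro a _ b _
    rw [← QuotientGroup.eq_one_iff]
    have h1 : (QuotientGroup.mk b : P ⧸ M) ∈ Subgroup.center (P ⧸ M) := by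
      apply hN
      rw [hNtop]
      trivial
    have h2 := Subgroup.mem_center_iff.1 h1 (QuotientGroup.mk a)
    have h3 : (QuotientGroup.mk (a * b * a⁻¹ * b⁻¹) : P ⧸ M) = (QuotientGroup.mk a * QuotientGroup.mk b) *
      (QuotientGroup.mk a)⁻¹ * (QuotientGroup.mk b)⁻¹ := rfl
    rw [commutatorElement_def, h3, h2, mul_inv_cancel_right, mul_inv_cancel]
  · intro x
    rw [← QuotientGroup.eq_one_iff, QuotientGroup.mk_pow, ← hcard, pow_card_eq_one']

theorem comm_le_frattini (p : ℕ) [hp : Fact p.Prime] {P : Type} [Group P] [Finite P]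
    (hP : IsPGroup p P) : commutator P ≤ frattini P := by
  unfold frattini Order.radical
  refine le_iInf₂ fun M hM => ?_
  exact (coatom_props p hP M hM).1

theorem pow_mem_frattini (p : ℕ) [hp : Fact p.Prime] {P : Type} [Group P] [Finite P]
    (hP : IsPGroup p P) (x : P) : x ^ p ∈ frattini P := by
  unfold frattini Order.radical
  rw [Subgroup.mem_iInf]
  intro M
  rw [Subgroup.mem_iInf]
  intro hM
  exact (coatom_props p hP M hM).2 x

/-- a set of representatives for the cosets of the Frattini subgroup generates -/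
theorem gen_of_frattini {P : Type} [Group P] [Finite P] (F : Set P)
    (h : ∀ x : P, ∃ f ∈ Subgroup.closure F, f⁻¹ * x ∈ frattini P) : Subgroup.closure F = ⊤ := by
  apply frattini_nongenerating
  rw [eq_top_iff]
  intro x _
  obtain ⟨f, hf, hfx⟩ := h x
  have : x = f * (f⁻¹ * x) := by group
  rw [this]
  exact Subgroup.mul_mem_sup hf hfx

/-- the rank of a `p`-group is at most `|P : P'|` -/
theorem rank_le_ab (p : ℕ) [hp : Fact p.Prime] (P : Type) [Group P] [Finite P] (hP : IsPGroup p P) :
    Group.rank P ≤ Nat.card (P ⧸ commutator P) := by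
  classical
  have := Fintype.ofFinite (P ⧸ commutator P)
  let F : Finset P := Finset.univ.image (fun q : P ⧸ commutator P => (QuotientGroup.mk_surjective q).choose)
  have hF : Subgroup.closure (F : Set P) = ⊤ := by
    apply gen_of_frattini
    intro x
    refine ⟨(QuotientGroup.mk_surjective (QuotientGroup.mk x : P ⧸ commutator P)).choose,
      Subgroup.subset_closure ?_, ?_⟩
    · rw [Finset.mem_coe, Finset.mem_image]
      exact ⟨QuotientGroup.mk x, Finset.mem_univ _, rfl⟩
    · apply comm_le_frattini p hP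
      exact (QuotientGroup.eq).1 (QuotientGroup.mk_surjective (QuotientGroup.mk x : P ⧸ commutator P)).choose_spec
  refine (Group.rank_le hF).trans (Finset.card_image_le.trans ?_)
  rw [Finset.card_univ, Nat.card_eq_fintype_card]

theorem card_pow_rank {A : Type} [Group A] [Finite A] (hA : ∀ a b : A, a * b = b * a) {n : ℕ}
    (hn : n ≠ 0) (h : ∀ a : A, a ^ n = 1) : Nat.card A ≤ n ^ Group.rank A := by
  let _ : CommGroup A := { ‹Group A› with mul_comm := hA }
  have h1 := card_dvd_exponent_pow_rank' A h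
  exact Nat.le_of_dvd (pow_pos (Nat.pos_of_ne_zero hn) _) h1

theorem card_frattini_quot (p : ℕ) [hp : Fact p.Prime] (P : Type) [Group P] [Finite P]
    (hP : IsPGroup p P) : Nat.card (P ⧸ frattini P) ≤ p ^ Group.rank P := by
  have h1 : Nat.card (P ⧸ frattini P) ≤ p ^ Group.rank (P ⧸ frattini P) := by
    refine card_pow_rank ?_ hp.out.ne_zero ?_
    · intro a b
      obtain ⟨a, rfl⟩ := QuotientGroup.mk_surjective a
      obtain ⟨b, rfl⟩ := QuotientGroup.mk_surjective b
      change (QuotientGroup.mk (a * b) : P ⧸ frattini P) = QuotientGroup.mk (b * a)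
      rw [QuotientGroup.eq]
      apply comm_le_frattini p hP
      rw [← Abelianization.ker_of P, MonoidHom.mem_ker]
      rw [map_mul, map_inv, map_mul, map_mul, mul_comm (Abelianization.of b), inv_mul_cancel]
    · intro a
      obtain ⟨a, rfl⟩ := QuotientGroup.mk_surjective a
      rw [← QuotientGroup.mk_pow, QuotientGroup.eq_one_iff]
      exact pow_mem_frattini p hP a
  refine h1.trans (Nat.pow_le_pow_right hp.out.pos ?_)
  exact Group.rank_le_of_surjective (QuotientGroup.mk' (frattini P)) (QuotientGroup.mk'_surjective _)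

/-- a generating set of a `p`-group contains a small generating set -/
theorem small_gen (p : ℕ) [hp : Fact p.Prime] (P : Type) [Group P] [Finite P] (hP : IsPGroup p P)
    (S : Set P) (hone : (1 : P) ∈ S) (hS : Subgroup.closure S = ⊤) : ∃ F : Finset P, (F : Set P) ⊆ S ∧
      F.card ≤ p ^ Group.rank P ∧ Subgroup.closure (F : Set P) = ⊤ := by
  classical
  have := Fintype.ofFinite (P ⧸ frattini P)
  let r : (P ⧸ frattini P) → P := fun q =>
    if h : ∃ s ∈ S, (QuotientGroup.mk s : P ⧸ frattini P) = q then h.choose else 1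
  have hr1 : ∀ q, r q ∈ S := by
    intro q
    by_cases h : ∃ s ∈ S, (QuotientGroup.mk s : P ⧸ frattini P) = q
    · simp only [r, dif_pos h]
      exact h.choose_spec.1
    · simp only [r, dif_neg h]
      exact hone
  have hr2 : ∀ s ∈ S, (QuotientGroup.mk (r (QuotientGroup.mk s)) : P ⧸ frattini P) = QuotientGroup.mk s := by
    intro s hs
    have h : ∃ s' ∈ S, (QuotientGroup.mk s' : P ⧸ frattini P) = QuotientGroup.mk s := ⟨s, hs, rfl⟩
    simp only [r, dif_pos h]
    exact h.choose_spec.2
  let F : Finset P := Finset.univ.image r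
  refine ⟨F, ?_, ?_, ?_⟩
  · intro x hx
    obtain ⟨q, _, rfl⟩ := Finset.mem_image.1 (Finset.mem_coe.1 hx)
    exact hr1 q
  · refine Finset.card_image_le.trans ?_
    rw [Finset.card_univ, ← Nat.card_eq_fintype_card]
    exact card_frattini_quot p P hP
  · apply frattini_nongenerating
    rw [eq_top_iff, ← hS, Subgroup.closure_le]
    intro s hs
    have h1 := (QuotientGroup.eq).1 (hr2 s hs)
    have h2 : s = r (QuotientGroup.mk s) * ((r (QuotientGroup.mk s))⁻¹ * s) := by group
    rw [h2]
    refine Subgroup.mul_mem_sup (Subgroup.subset_closure ?_) h1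
    rw [Finset.mem_coe, Finset.mem_image]
    exact ⟨_, Finset.mem_univ _, rfl⟩

lemma nil_bot {Q : Type} [Group Q] [hQ : Group.IsNilpotent Q] (N : Subgroup Q) (h : N ≤ ⁅N, (⊤ : Subgroup Q)⁆) :
    N = ⊥ := by
  obtain ⟨n, hn⟩ := Subgroup.nilpotent_iff_lowerCentralSeries.1 hQ
  have h1 : ∀ n, N ≤ (⊤ : Subgroup Q).lowerCentralSeries n := by
    intro n
    induction n with
    | zero => exact le_top
    | succ n ih =>
      rw [Subgroup.lowerCentralSeries_succ]
      exact h.trans (Subgroup.commutator_mono ih le_rfl)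
  rw [eq_bot_iff, ← hn]
  exact h1 n

/-- in a nilpotent group, `D ≤ T ⊔ [D, G]` implies `D ≤ T`. -/
lemma nil_le {G : Type} [Group G] [hG : Group.IsNilpotent G] (T D : Subgroup G) [hT : T.Normal]
    (h : D ≤ T ⊔ ⁅D, (⊤ : Subgroup G)⁆) : D ≤ T := by
  have h1 : D.map (QuotientGroup.mk' T) ≤ ⁅D.map (QuotientGroup.mk' T), (⊤ : Subgroup (G ⧸ T))⁆ := by
    have h2 := Subgroup.map_mono (f := QuotientGroup.mk' T) h
    rw [Subgroup.map_sup, Subgroup.map_commutator,
      Subgroup.map_top_of_surjective _ (QuotientGroup.mk'_surjective T)] at h2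
    have h3 : T.map (QuotientGroup.mk' T) = ⊥ := by
      rw [Subgroup.map_eq_bot_iff, QuotientGroup.ker_mk']
    rwa [h3, bot_sup_eq] at h2
  have h2 := nil_bot _ h1
  rwa [Subgroup.map_eq_bot_iff, QuotientGroup.ker_mk'] at h2

/-- transfer -/
theorem transfer_pow (p : ℕ) [hp : Fact p.Prime] {G : Type} [Group G] [Finite G] (hG : IsPGroup p G)
    (A E : Subgroup G) [hE : E.Normal] (h : ∀ a ∈ A, ∀ g : G, a⁻¹ * (g * a * g⁻¹) ∈ E) (b L v : ℕ)
    (hb : A.index ≤ b) (hL : Nat.card (G ⧸ commutator G) ≤ L) (hv : b * L ≤ v) (g : G) :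
    g ^ p ^ v ∈ E := by
  classical
  let Z := Subgroup.center (G ⧸ E)
  have hZi : Z.index ≤ b := by
    have h1 : A ≤ Z.comap (QuotientGroup.mk' E) := by
      intro a ha
      rw [Subgroup.mem_comap, Subgroup.mem_center_iff]
      intro q
      obtain ⟨g, rfl⟩ := QuotientGroup.mk_surjective q
      have h2 := h a ha g
      rw [← QuotientGroup.eq] at h2
      have h3 : (QuotientGroup.mk (g * a * g⁻¹) : G ⧸ E) =
        QuotientGroup.mk g * QuotientGroup.mk a * (QuotientGroup.mk g)⁻¹ := rfl
      rw [h3] at h2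
      exact (eq_mul_inv_iff_mul_eq.1 h2).symm
    have h2 : (Z.comap (QuotientGroup.mk' E)).index = Z.index :=
      Subgroup.index_comap_of_surjective Z (QuotientGroup.mk'_surjective E)
    rw [← h2]
    exact (Nat.le_of_dvd (Nat.pos_of_ne_zero Subgroup.index_ne_zero_of_finite)
      (Subgroup.index_dvd_of_le h1)).trans hb
  -- the abelianisation kills
  have h1 : (g ^ Nat.card (G ⧸ commutator G)) ∈ commutator G := by
    rw [← QuotientGroup.eq_one_iff, QuotientGroup.mk_pow, pow_card_eq_one']
  have h2 : commutator G ≤ ((MonoidHom.transferCenterPow (G ⧸ E)).comp (QuotientGroup.mk' E)).ker := by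
    rw [commutator_def, Subgroup.commutator_le]
    intro a _ b _
    rw [MonoidHom.mem_ker, map_commutatorElement, commutatorElement_eq_one_iff_mul_comm]
    apply Subtype.ext
    exact Subgroup.mem_center_iff.1 (((MonoidHom.transferCenterPow (G ⧸ E)).comp (QuotientGroup.mk' E) b)).2 _
  have h3 := h2 h1
  rw [MonoidHom.mem_ker, ← Subtype.coe_inj, MonoidHom.comp_apply,
    MonoidHom.transferCenterPow_apply, OneMemClass.coe_one, QuotientGroup.mk'_apply,
    ← QuotientGroup.mk_pow, QuotientGroup.eq_one_iff, ← pow_mul] at h3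
  -- the exponent is a power of `p`
  obtain ⟨i, hi⟩ := IsPGroup.iff_card.1 (hG.to_quotient (commutator G))
  have hZdvd : Z.index ∣ Nat.card (G ⧸ E) := Z.index_dvd_card
  obtain ⟨j, hj⟩ := IsPGroup.iff_card.1 (hG.to_quotient E)
  rw [hj] at hZdvd
  obtain ⟨t, _, ht⟩ := (Nat.dvd_prime_pow hp.out).1 hZdvd
  have h4 : i + t ≤ v := by
    have h5 : p ^ (i + t) ≤ L * b := by
      rw [pow_add, ← hi, ← ht]
      exact Nat.mul_le_mul hL hZi
    have h6 : i + t < p ^ (i + t) := Nat.lt_pow_self hp.out.one_lt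
    have h7 : L * b = b * L := mul_comm _ _
    omega
  have h5 : Nat.card (G ⧸ commutator G) * Z.index ∣ p ^ v := by
    rw [hi, ht, ← pow_add]
    exact pow_dvd_pow p h4
  obtain ⟨m, hm⟩ := h5
  rw [hm, pow_mul]
  exact E.pow_mem h3 m

end nil

end Pool.Agent.X39.AZ
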