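import Pool.Agent.X39.AZ.Count

set_option autoImplicit false
open CategoryTheory Pool.Agent.W367.SN

namespace Pool.Agent.X39.AZ

section pg

/-- a central subgroup of order `p` -/
lemma exists_central (p : ℕ) [hp : Fact p.Prime] (G : Type) [Group G] [Finite G] (hG : IsPGroup p G)
    [Nontrivial G] : ∃ N : Subgroup G, N ≤ Subgroup.center G ∧ Nat.card N = p ∧
      ∃ z : G, z ∈ N ∧ z ≠ 1 ∧ ∀ w ∈ N, w ≠ 1 → N ≤ Subgroup.zpowers w := by
  have hc : Nontrivial (Subgroup.center G) := hG.center_nontrivial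
  have hZ : IsPGroup p (Subgroup.center G) := hG.to_subgroup _
  obtain ⟨n, hn⟩ := IsPGroup.iff_card.1 hZ
  have hn0 : n ≠ 0 := by
    rintro rfl
    rw [pow_zero] at hn
    have := Finite.one_lt_card (α := Subgroup.center G)
    omega
  have hdvd : p ∣ Nat.card (Subgroup.center G) := by
    rw [hn]
    exact dvd_pow_self p hn0
  obtain ⟨z, hz⟩ := exists_prime_orderOf_dvd_card' p hdvd
  refine ⟨Subgroup.zpowers (z : G), ?_, ?_, (z : G), Subgroup.mem_zpowers _, ?_, ?_⟩
  · rw [Subgroup.zpowers_le]
    exact z.2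
  · rw [Nat.card_zpowers, Subgroup.orderOf_coe, hz]
  · intro h
    have : orderOf (z : G) = 1 := by rw [h, orderOf_one]
    rw [Subgroup.orderOf_coe, hz] at this
    exact hp.out.one_lt.ne' this
  · intro w hw hw1
    have hord : orderOf (z : G) = p := by rw [Subgroup.orderOf_coe, hz]
    have hwo : orderOf w = p := by
      have h1 : orderOf w ∣ p := by
        rw [← hord]
        exact orderOf_dvd_of_mem_zpowers hw
      rcases (Nat.dvd_prime hp.out).1 h1 with h | h
      · exact absurd (orderOf_eq_one_iff.1 h) hw1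
      · exact h
    have h2 : Subgroup.zpowers w ≤ Subgroup.zpowers (z : G) := Subgroup.zpowers_le.2 hw
    have h3 : Subgroup.zpowers w = Subgroup.zpowers (z : G) := by
      apply Subgroup.eq_of_le_of_card_ge h2
      rw [Nat.card_zpowers, Nat.card_zpowers, hord, hwo]
    rw [h3]

lemma normal_of_central {G : Type} [Group G] {N : Subgroup G} (h : N ≤ Subgroup.center G) : N.Normal :=
  ⟨fun n hn g => by
    have := Subgroup.mem_center_iff.1 (h hn) g
    rw [this, mul_inv_cancel_right]
    exact hn⟩

lemma kk_lt {G : Type} [Group G] [Finite G] (N : Subgroup G) [N.Normal] (hN : N ≠ ⊥) :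
    kk (G ⧸ N) < kk G := by
  have := Fintype.ofFinite (ConjClasses G)
  have hfin : Finite (ConjClasses (G ⧸ N)) := inferInstance
  have := Fintype.ofFinite (ConjClasses (G ⧸ N))
  unfold kk
  rw [Nat.card_eq_fintype_card, Nat.card_eq_fintype_card]
  refine Fintype.card_lt_of_surjective_not_injective
    (fun c : ConjClasses G => ConjClasses.map (QuotientGroup.mk' N) c) ?_ ?_
  · intro c
    obtain ⟨g, rfl⟩ := nd_surj N c
    exact ⟨ConjClasses.mk g, rfl⟩
  · intro hinj
    obtain ⟨⟨n, hn⟩, hn0⟩ := N.ne_bot_iff_exists_ne_one.1 hN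
    have hn1 : n ≠ 1 := fun h => hn0 (Subtype.ext h)
    have h1 : ConjClasses.map (QuotientGroup.mk' N) (ConjClasses.mk n) =
        ConjClasses.map (QuotientGroup.mk' N) (ConjClasses.mk (1 : G)) := by
      change nd N n = nd N 1
      have := nd_mul N 1 hn
      rwa [one_mul] at this
    have h2 := hinj h1
    rw [ConjClasses.mk_eq_mk_iff_isConj] at h2
    obtain ⟨u, hu⟩ := isConj_iff.1 h2
    apply hn1
    have : n = u⁻¹ * 1 * u := by rw [← hu]; group
    rw [this]
    group

theorem card_le_pow_aux (p : ℕ) [hp : Fact p.Prime] : ∀ (n : ℕ) (G : Type) [Group G] [Finite G],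
    IsPGroup p G → Nat.card G ≤ n → Nat.card G ≤ p ^ kk G := by
  intro n
  induction n with
  | zero =>
    intro G _ _ _ h
    have := Nat.card_pos (α := G)
    omega
  | succ n ih =>
    intro G _ _ hG hn
    rcases subsingleton_or_nontrivial G with hs | hs
    · have : Nat.card G = 1 := Nat.card_eq_one_iff_unique.2 ⟨hs, ⟨1⟩⟩
      rw [this]
      exact Nat.one_le_pow _ _ hp.out.pos
    · obtain ⟨N, hN, hNc, z, hz, hz1, -⟩ := exists_central p G hG
      have hnorm := normal_of_central hN
      have h1 : Nat.card G = Nat.card (G ⧸ N) * Nat.card N := N.card_eq_card_quotient_mul_card_subgroup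
      have h2 : Nat.card (G ⧸ N) ≤ n := by
        have h3 : 0 < Nat.card (G ⧸ N) := Nat.card_pos
        have h4 := hp.out.two_le
        rw [h1, hNc] at hn
        nlinarith
      have h3 := ih (G ⧸ N) (hG.to_quotient N) h2
      have h4 : kk (G ⧸ N) + 1 ≤ kk G := kk_lt N (by
        intro h
        rw [h, Subgroup.mem_bot] at hz
        exact hz1 hz)
      rw [h1, hNc]
      calc Nat.card (G ⧸ N) * p ≤ p ^ kk (G ⧸ N) * p := Nat.mul_le_mul_right _ h3
        _ = p ^ (kk (G ⧸ N) + 1) := (pow_succ _ _).symm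
        _ ≤ p ^ kk G := Nat.pow_le_pow_right hp.out.pos h4

theorem card_le_pow (p : ℕ) [hp : Fact p.Prime] (G : Type) [Group G] [Finite G]
    (hG : IsPGroup p G) : Nat.card G ≤ p ^ kk G := card_le_pow_aux p _ G hG le_rfl

/-- the centre has at most `k(G)` elements -/
lemma card_center_le (G : Type) [Group G] [Finite G] : Nat.card (Subgroup.center G) ≤ kk G := by
  unfold kk
  refine Nat.card_le_card_of_injective (fun z : Subgroup.center G => ConjClasses.mk (z : G)) ?_
  intro a b h
  have h1 : ConjClasses.mk (a : G) = ConjClasses.mk (b : G) := h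
  rw [ConjClasses.mk_eq_mk_iff_isConj] at h1
  obtain ⟨u, hu⟩ := isConj_iff.1 h1
  apply Subtype.ext
  rw [← hu, Subgroup.mem_center_iff.1 a.2 u, mul_inv_cancel_right]

lemma p_le_kk (p : ℕ) [hp : Fact p.Prime] (G : Type) [Group G] [Finite G] (hG : IsPGroup p G)
    [Nontrivial G] : p ≤ kk G := by
  obtain ⟨N, hN, hNc, -⟩ := exists_central p G hG
  rw [← hNc]
  exact (Nat.card_le_card_of_injective _ (Subgroup.inclusion_injective hN)).trans (card_center_le G)

theorem card_le_kk_pow (p : ℕ) [hp : Fact p.Prime] (G : Type) [Group G] [Finite G]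
    (hG : IsPGroup p G) : Nat.card G ≤ kk G ^ kk G := by
  rcases subsingleton_or_nontrivial G with hs | hs
  · have : Nat.card G = 1 := Nat.card_eq_one_iff_unique.2 ⟨hs, ⟨1⟩⟩
    rw [this]
    exact Nat.one_le_pow _ _ Nat.card_pos
  · exact (card_le_pow p G hG).trans (Nat.pow_le_pow_left (p_le_kk p G hG) _)

end pg

section infl
variable {G : Type} [Group G] [Fintype G]

/-- inflation of irreducible characters -/
theorem inflate (N : Subgroup G) [N.Normal] [Fintype (G ⧸ N)] {χ : G ⧸ N → ℂ} (hχ : χ ∈ IrrC (G ⧸ N)) :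
    (fun g : G => χ (QuotientGroup.mk g)) ∈ IrrC G := by
  classical
  obtain ⟨V, hV, rfl⟩ := hχ
  refine ⟨FDRep.of (V.ρ.comp (QuotientGroup.mk' N)), ?_, rfl⟩
  rw [FDRep.simple_iff_char_is_norm_one]
  have h := irr_norm (Γ := G ⧸ N) ⟨V, hV, rfl⟩
  have h1 : ∀ g : G, (FDRep.of (V.ρ.comp (QuotientGroup.mk' N))).character g =
      V.character (QuotientGroup.mk g) := fun g => rfl
  simp only [h1]
  have h2 : ∑ g : G, V.character (QuotientGroup.mk g : G ⧸ N) * V.character (QuotientGroup.mk g⁻¹ : G ⧸ N) =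
      Nat.card N * ∑ q : G ⧸ N, V.character q * V.character q⁻¹ := by
    have := Fintype.ofFinite N
    rw [← Equiv.sum_comp (Subgroup.groupEquivQuotientProdSubgroup (s := N)).symm, Fintype.sum_prod_type,
      Finset.mul_sum]
    refine Finset.sum_congr rfl fun q _ => ?_
    have h3 : ∀ n : N, (QuotientGroup.mk ((Subgroup.groupEquivQuotientProdSubgroup (s := N)).symm (q, n)) :
        G ⧸ N) = q := by
      intro n
      have := congrArg Prod.fst ((Subgroup.groupEquivQuotientProdSubgroup (s := N)).apply_symm_apply (q, n))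
      exact this
    have h4 : ∀ n : N, V.character (QuotientGroup.mk
          ((Subgroup.groupEquivQuotientProdSubgroup (s := N)).symm (q, n)) : G ⧸ N) *
        V.character (QuotientGroup.mk
          ((Subgroup.groupEquivQuotientProdSubgroup (s := N)).symm (q, n))⁻¹ : G ⧸ N) =
        V.character q * V.character q⁻¹ := by
      intro n
      rw [QuotientGroup.mk_inv, h3]
    simp only [h4]
    rw [Finset.sum_const, Finset.card_univ, nsmul_eq_mul, Nat.card_eq_fintype_card]
  rw [h2, h, N.card_eq_card_quotient_mul_card_subgroup, Nat.card_eq_fintype_card (α := G ⧸ N)]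
  push_cast
  ring

end infl

end Pool.Agent.X39.AZ
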