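import Pool.Agent.X39.AZ.Cls

set_option autoImplicit false
open CategoryTheory Pool.Agent.W367.SN

namespace Pool.Agent.X39.AZ

section tr
variable {G : Type} [Group G]

/-- `χ` is trivial on `N` -/
def Tr (N : Subgroup G) (χ : G → ℂ) : Prop := ∀ n ∈ N, ∀ g, χ (g * n) = χ g

lemma Tr.mono {N N' : Subgroup G} (h : N ≤ N') {χ : G → ℂ} (ht : Tr N' χ) : Tr N χ :=
  fun n hn g => ht n (h hn) g

/-- the kernel -/
def Kr (χ : G → ℂ) : Subgroup G where
  carrier := {k | ∀ g, χ (g * k) = χ g}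
  one_mem' := fun g => by rw [mul_one]
  mul_mem' := fun {a b} ha hb g => by rw [← mul_assoc, hb, ha]
  inv_mem' := fun {a} ha g => by
    have := ha (g * a⁻¹)
    rw [inv_mul_cancel_right] at this
    exact this.symm

lemma mem_Kr {χ : G → ℂ} {k : G} : k ∈ Kr χ ↔ ∀ g, χ (g * k) = χ g := Iff.rfl

lemma tr_iff {N : Subgroup G} {χ : G → ℂ} : Tr N χ ↔ N ≤ Kr χ := Iff.rfl

lemma Kr_normal {χ : G → ℂ} (h : IsCF χ) : (Kr χ).Normal := ⟨fun k hk u g => by
  have h1 : g * (u * k * u⁻¹) = u * ((u⁻¹ * g * u) * k) * u⁻¹ := by group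
  rw [h1, h, hk, ← h (u⁻¹ * g * u) u]
  congr 1
  group⟩

variable [Fintype G]

open Classical in
theorem dich (N : Subgroup G) [hN : N.Normal] {χ : G → ℂ} (hχ : χ ∈ IrrC G) :
    Tr N χ ∨ ∀ g, ∑ n : N, χ (g * n) = 0 := by
  have h1 : ∀ x, ∑ n : N, χ (x * n) = χ x * (∑ n : N, χ n / χ 1) := by
    intro x
    have h2 : ∑ n : N, ∑ g : G, χ (x * (g * n * g⁻¹)) =
        Fintype.card G * (χ x * (∑ n : N, χ n / χ 1)) := by
      simp only [prod_formula hχ]
      rw [← Finset.mul_sum, Finset.mul_sum (s := Finset.univ) (a := χ x)]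
      congr 1
      exact Finset.sum_congr rfl fun n _ => by ring
    have h3 : ∑ n : N, ∑ g : G, χ (x * (g * n * g⁻¹)) = Fintype.card G * ∑ n : N, χ (x * n) := by
      rw [Finset.sum_comm]
      have h4 : ∀ g : G, ∑ n : N, χ (x * (g * n * g⁻¹)) = ∑ n : N, χ (x * n) := by
        intro g
        exact Fintype.sum_equiv (MulAut.conjNormal g : MulAut N).toEquiv _ _ (fun n => rfl)
      simp only [h4]
      simp
    rw [h3] at h2
    exact mul_left_cancel₀ card_ne h2
  by_cases hs : (∑ n : N, χ n / χ 1) = 0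
  · right
    intro g
    rw [h1, hs, mul_zero]
  · left
    intro n hn g
    have h2 : ∑ m : N, χ (g * n * m) = ∑ m : N, χ (g * m) := by
      refine Fintype.sum_equiv (Equiv.mulLeft (⟨n, hn⟩ : N)) _ _ (fun m => ?_)
      simp [mul_assoc]
    rw [h1, h1] at h2
    exact mul_right_cancel₀ hs h2

theorem scal (M : Subgroup G) {χ : G → ℂ} (hχ : χ ∈ IrrC G) (hM : Tr M χ) {c : G}
    (hc : ∀ g, c⁻¹ * (g * c * g⁻¹) ∈ M) (x : G) : χ (x * c) = χ x * χ c / χ 1 := by
  have h1 := prod_formula hχ x c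
  have h2 : ∀ g : G, χ (x * (g * c * g⁻¹)) = χ (x * c) := by
    intro g
    have e : x * (g * c * g⁻¹) = (x * c) * (c⁻¹ * (g * c * g⁻¹)) := by group
    rw [e, hM _ (hc g)]
  simp only [h2] at h1
  rw [Finset.sum_const, Finset.card_univ, nsmul_eq_mul] at h1
  exact mul_left_cancel₀ card_ne h1

/-- the vanishing lemma -/
theorem vanish (M : Subgroup G) {χ : G → ℂ} (hχ : χ ∈ IrrC G) (hM : Tr M χ) {x y : G}
    (hc : ∀ g, (x⁻¹ * (y * x * y⁻¹))⁻¹ * (g * (x⁻¹ * (y * x * y⁻¹)) * g⁻¹) ∈ M)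
    (hk : x⁻¹ * (y * x * y⁻¹) ∉ Kr χ) : χ x = 0 := by
  by_contra hne
  apply hk
  have h1 := scal M hχ hM hc
  have h2 := h1 x
  rw [mul_inv_cancel_left, irr_class hχ] at h2
  have h3 : χ (x⁻¹ * (y * x * y⁻¹)) / χ 1 = 1 := by
    have : χ x * (χ (x⁻¹ * (y * x * y⁻¹)) / χ 1) = χ x * 1 := by
      rw [mul_one, ← mul_div_assoc]
      exact h2.symm
    exact mul_left_cancel₀ hne this
  intro g
  rw [h1 g, mul_div_assoc, h3, mul_one]

theorem coef_zero (N : Subgroup G) [N.Normal] {F χ : G → ℂ} (hF : ∀ g, ∀ n ∈ N, F (g * n) = F g)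
    (hχ : χ ∈ IrrC G) (h : ¬ Tr N χ) : coef F χ = 0 := by
  classical
  have h0 := (dich N hχ).resolve_left h
  have h1 : ∀ n : N, ∑ g, F g * χ g⁻¹ = ∑ g, F g * χ (g⁻¹ * n) := by
    intro n
    refine Fintype.sum_equiv (Equiv.mulRight (n : G)) _ _ (fun g => ?_)
    have e : (g * (n : G))⁻¹ * n = (n : G)⁻¹ * (g⁻¹) * (n : G)⁻¹⁻¹ := by group
    change F g * χ g⁻¹ = F (g * n) * χ ((g * (n : G))⁻¹ * n)
    rw [hF g n n.2, e, irr_class hχ]
  have h2 : (Fintype.card N : ℂ) * ∑ g, F g * χ g⁻¹ = 0 := by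
    calc (Fintype.card N : ℂ) * ∑ g, F g * χ g⁻¹ = ∑ n : N, ∑ g, F g * χ g⁻¹ := by
          rw [Finset.sum_const, Finset.card_univ, nsmul_eq_mul]
      _ = ∑ n : N, ∑ g, F g * χ (g⁻¹ * n) := Finset.sum_congr rfl fun n _ => h1 n
      _ = ∑ g, F g * ∑ n : N, χ (g⁻¹ * n) := by
          rw [Finset.sum_comm]
          exact Finset.sum_congr rfl fun g _ => (Finset.mul_sum _ _ _).symm
      _ = 0 := by simp only [h0, mul_zero, Finset.sum_const_zero]
  unfold coef
  have h3 : (Fintype.card N : ℂ) ≠ 0 := by exact_mod_cast Fintype.card_ne_zero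
  rw [(mul_eq_zero.1 h2).resolve_left h3, mul_zero]

omit [Fintype G] in
lemma tr_nd {N : Subgroup G} [hN : N.Normal] {χ : G → ℂ} (hχ : IsCF χ) (hT : Tr N χ) {a b : G}
    (h : nd N a = nd N b) : χ a = χ b := by
  unfold nd at h
  rw [ConjClasses.mk_eq_mk_iff_isConj] at h
  obtain ⟨q, hq⟩ := isConj_iff.1 h
  obtain ⟨u, rfl⟩ := QuotientGroup.mk_surjective q
  have h1 : (QuotientGroup.mk (u * a * u⁻¹) : G ⧸ N) = QuotientGroup.mk b := hq
  rw [QuotientGroup.eq] at h1
  have h2 := hT _ h1 (u * a * u⁻¹)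
  rw [mul_inv_cancel_left, hχ] at h2
  exact h2.symm

open Classical in
/-- the number of irreducible characters trivial on `N` -/
theorem card_Tr (N : Subgroup G) [N.Normal] :
    ((I G).filter (Tr N)).card = Nat.card (ConjClasses (G ⧸ N)) := by
  have hfin : Finite (ConjClasses (G ⧸ N)) := inferInstance
  have := Fintype.ofFinite (ConjClasses (G ⧸ N))
  let rep : ConjClasses (G ⧸ N) → G := fun c => (nd_surj N c).choose
  have hrep : ∀ c, nd N (rep c) = c := fun c => (nd_surj N c).choose_spec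
  let J := (I G).filter (Tr N)
  let dv : (G → ℂ) → (ConjClasses (G ⧸ N) → ℂ) := fun χ c => χ (rep c)
  have hspan : Submodule.span ℂ ((J.image dv : Finset _) : Set (ConjClasses (G ⧸ N) → ℂ)) = ⊤ := by
    rw [Submodule.eq_top_iff']
    intro f
    have hF : IsCF (fun g => f (nd N g)) := fun g u => by
      change f _ = f _
      rw [nd_conj]
    have hFN : ∀ g, ∀ n ∈ N, (fun g => f (nd N g)) (g * n) = (fun g => f (nd N g)) g :=
      fun g n hn => by
        change f _ = f _
        rw [nd_mul N g hn]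
    have e : f = ∑ χ ∈ J, coef (fun g => f (nd N g)) χ • dv χ := by
      funext c
      have h1 : f (nd N (rep c)) = _ := expand hF (rep c)
      rw [hrep] at h1
      rw [h1, Finset.sum_apply, Finset.sum_filter]
      refine Finset.sum_congr rfl fun χ hχ => ?_
      split_ifs with h
      · rfl
      · rw [coef_zero N hFN (mem_I.1 hχ) h, zero_mul]
    rw [e]
    refine Submodule.sum_mem _ fun χ hχ => Submodule.smul_mem _ _ (Submodule.subset_span ?_)
    exact Finset.mem_coe.2 (Finset.mem_image_of_mem _ hχ)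
  have h1 : Nat.card (ConjClasses (G ⧸ N)) ≤ J.card := by
    have h2 : Module.finrank ℂ (ConjClasses (G ⧸ N) → ℂ) ≤ (J.image dv).card := by
      rw [← finrank_top ℂ (ConjClasses (G ⧸ N) → ℂ), ← hspan]
      exact finrank_span_finset_le_card _
    rw [Module.finrank_fintype_fun_eq_card] at h2
    rw [Nat.card_eq_fintype_card]
    exact h2.trans Finset.card_image_le
  have h3 : J.card ≤ Nat.card (ConjClasses (G ⧸ N)) := by
    have hli : LinearIndependent ℂ (fun χ : J => dv χ) := by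
      rw [Fintype.linearIndependent_iff]
      intro a ha ψ
      let b : (G → ℂ) → ℂ := fun χ => if h : χ ∈ J then a ⟨χ, h⟩ else 0
      have hb : ∀ x : G, ∑ χ ∈ I G, b χ * χ x = 0 := by
        intro x
        have h4 := congrFun ha (nd N x)
        simp only [Finset.sum_apply, Pi.smul_apply, smul_eq_mul, Pi.zero_apply] at h4
        have h5 : ∑ χ ∈ I G, b χ * χ x = ∑ χ ∈ J, b χ * χ x := by
          symm
          apply Finset.sum_subset (Finset.filter_subset _ _)
          intro χ _ hχ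
          simp only [b]
          rw [dif_neg hχ, zero_mul]
        rw [h5, ← Finset.sum_attach, ← h4, Finset.univ_eq_attach]
        refine Finset.sum_congr rfl fun χ _ => ?_
        have h6 : b χ = a χ := by
          simp only [b]
          rw [dif_pos χ.2]
        have h7 := Finset.mem_filter.1 χ.2
        have h8 : dv χ (nd N x) = (χ : G → ℂ) x :=
          tr_nd (irr_cf (mem_I.1 h7.1)) h7.2 (hrep _)
        rw [h6, h8]
      have h4 := coef_unique hb ψ (Finset.mem_filter.1 ψ.2).1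
      simp only [b] at h4
      rwa [dif_pos ψ.2] at h4
    have h4 := hli.fintype_card_le_finrank
    rw [Module.finrank_fintype_fun_eq_card, Fintype.card_coe] at h4
    rwa [Nat.card_eq_fintype_card]
  exact le_antisymm h3 h1

/-- the number of irreducible characters is the number of classes -/
theorem card_I : (I G).card = Nat.card (ConjClasses G) := by
  classical
  have h := card_Tr (⊥ : Subgroup G)
  have h1 : (I G).filter (Tr (⊥ : Subgroup G)) = I G := by
    refine Finset.filter_true_of_mem fun χ _ => ?_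
    intro n hn g
    rw [Subgroup.mem_bot.1 hn, mul_one]
  rw [h1] at h
  rw [h]
  have e : Function.Bijective (fun c : ConjClasses G =>
      ConjClasses.map (QuotientGroup.mk' (⊥ : Subgroup G)) c) := by
    constructor
    · intro a b hab
      obtain ⟨a, rfl⟩ := ConjClasses.mk_surjective a
      obtain ⟨b, rfl⟩ := ConjClasses.mk_surjective b
      have h2 : nd (⊥ : Subgroup G) a = nd (⊥ : Subgroup G) b := hab
      unfold nd at h2
      rw [ConjClasses.mk_eq_mk_iff_isConj] at h2 ⊢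
      obtain ⟨q, hq⟩ := isConj_iff.1 h2
      obtain ⟨u, rfl⟩ := QuotientGroup.mk_surjective q
      have h3 : (QuotientGroup.mk (u * a * u⁻¹) : G ⧸ (⊥ : Subgroup G)) = QuotientGroup.mk b := hq
      rw [QuotientGroup.eq, Subgroup.mem_bot] at h3
      refine isConj_iff.2 ⟨u, ?_⟩
      exact inv_mul_eq_one.1 h3
    · intro c
      obtain ⟨g, rfl⟩ := nd_surj (⊥ : Subgroup G) c
      exact ⟨ConjClasses.mk g, rfl⟩
  exact (Nat.card_eq_of_bijective _ e).symm

end tr

end Pool.Agent.X39.AZ
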