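import Pool.Agent.X39.AZ.GW

set_option autoImplicit false
open CategoryTheory Pool.Agent.W367.SN

namespace Pool.Agent.X39.AZ

section pws
variable {G : Type} [Group G]

/-- the subgroup of `m`-th powers of an abelian subgroup -/
def pwS (A : Subgroup G) (hA : ∀ a ∈ A, ∀ b ∈ A, a * b = b * a) (m : ℕ) : Subgroup G where
  carrier := {x | ∃ a ∈ A, a ^ m = x}
  one_mem' := ⟨1, A.one_mem, one_pow m⟩
  mul_mem' := by
    rintro _ _ ⟨a, ha, rfl⟩ ⟨b, hb, rfl⟩
    exact ⟨a * b, A.mul_mem ha hb, (Commute.mul_pow (hA a ha b hb) m)⟩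
  inv_mem' := by
    rintro _ ⟨a, ha, rfl⟩
    exact ⟨a⁻¹, A.inv_mem ha, inv_pow a m⟩

variable {A : Subgroup G} {hA : ∀ a ∈ A, ∀ b ∈ A, a * b = b * a}

lemma mem_pwS {m : ℕ} {x : G} : x ∈ pwS A hA m ↔ ∃ a ∈ A, a ^ m = x := Iff.rfl

lemma pwS_normal [hn : A.Normal] (m : ℕ) : (pwS A hA m).Normal := ⟨by
  rintro _ ⟨a, ha, rfl⟩ g
  exact ⟨g * a * g⁻¹, hn.conj_mem a ha g, conj_pow⟩⟩

lemma pwS_le (m : ℕ) : pwS A hA m ≤ A := by
  rintro _ ⟨a, ha, rfl⟩
  exact A.pow_mem ha m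

lemma pwS_anti {m m' : ℕ} (h : m ∣ m') : pwS A hA m' ≤ pwS A hA m := by
  obtain ⟨c, rfl⟩ := h
  rintro _ ⟨a, ha, rfl⟩
  refine ⟨a ^ c, A.pow_mem ha c, ?_⟩
  rw [← pow_mul, mul_comm]

theorem pwS_strict (p : ℕ) [hp : Fact p.Prime] [Finite G] (hG : IsPGroup p G) (i : ℕ)
    (h : pwS A hA (p ^ i) ≤ pwS A hA (p ^ (i + 1))) : pwS A hA (p ^ i) = ⊥ := by
  set B := pwS A hA (p ^ i) with hB
  let f : B → B := fun x => ⟨x.1 ^ p, B.pow_mem x.2 p⟩
  have hf : Function.Surjective f := by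
    rintro ⟨x, hx⟩
    obtain ⟨a, ha, hax⟩ := h hx
    refine ⟨⟨a ^ p ^ i, ⟨a, ha, rfl⟩⟩, Subtype.ext ?_⟩
    change (a ^ p ^ i) ^ p = x
    rw [← hax, ← pow_mul, ← pow_succ]
  have hfi : Function.Injective f := Finite.injective_iff_surjective.2 hf
  by_contra hne
  have hnt : Nontrivial B := (Subgroup.nontrivial_iff_ne_bot B).2 hne
  have hBp : IsPGroup p B := hG.to_subgroup B
  obtain ⟨n, hn⟩ := IsPGroup.iff_card.1 hBp
  have hn0 : n ≠ 0 := by
    rintro rfl
    rw [pow_zero] at hn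
    have := Finite.one_lt_card (α := B)
    omega
  have hdvd : p ∣ Nat.card B := by
    rw [hn]
    exact dvd_pow_self p hn0
  obtain ⟨z, hz⟩ := exists_prime_orderOf_dvd_card' p hdvd
  have h1 : f z = f 1 := by
    apply Subtype.ext
    change (z : G) ^ p = (1 : G) ^ p
    rw [one_pow]
    have h2 : z ^ p = 1 := by
      rw [← hz]
      exact pow_orderOf_eq_one z
    have := congrArg (fun y : B => (y : G)) h2
    exact this
  have h2 := hfi h1
  rw [h2, orderOf_one] at hz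
  exact hp.out.one_lt.ne hz

theorem pwS_comm (p : ℕ) [hp : Fact p.Prime] [Finite G] (hG : IsPGroup p G) [hAn : A.Normal]
    (b L v : ℕ) (hb : A.index ≤ b) (hL : Nat.card (G ⧸ commutator G) ≤ L) (hv : b * L ≤ v) (i : ℕ)
    (hne : pwS A hA (p ^ (i + v)) ≠ ⊥) :
    ∃ x ∈ pwS A hA (p ^ i), ∃ y : G, x⁻¹ * (y * x * y⁻¹) ∉ pwS A hA (p ^ (i + v + 1)) := by
  by_contra hcon
  push Not at hcon
  have hTn := pwS_normal (A := A) (hA := hA) (p ^ (i + v + 1))
  set T := pwS A hA (p ^ (i + v + 1)) with hT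
  let E : Subgroup G :=
    { carrier := {c | c ∈ A ∧ c ^ p ^ i ∈ T}
      one_mem' := ⟨A.one_mem, by rw [one_pow]; exact T.one_mem⟩
      mul_mem' := by
        rintro a b ⟨ha, ha'⟩ ⟨hb, hb'⟩
        refine ⟨A.mul_mem ha hb, ?_⟩
        rw [Commute.mul_pow (hA a ha b hb)]
        exact T.mul_mem ha' hb'
      inv_mem' := by
        rintro a ⟨ha, ha'⟩
        refine ⟨A.inv_mem ha, ?_⟩
        rw [inv_pow]
        exact T.inv_mem ha' }
  have hE : E.Normal := ⟨by
    rintro a ⟨ha, ha'⟩ g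
    refine ⟨hAn.conj_mem a ha g, ?_⟩
    rw [conj_pow]
    exact hTn.conj_mem _ ha' g⟩
  have h1 : ∀ a ∈ A, ∀ g : G, a⁻¹ * (g * a * g⁻¹) ∈ E := by
    intro a ha g
    have hga := hAn.conj_mem a ha g
    refine ⟨A.mul_mem (A.inv_mem ha) hga, ?_⟩
    rw [Commute.mul_pow (hA _ (A.inv_mem ha) _ hga), inv_pow, conj_pow]
    exact hcon _ ⟨a, ha, rfl⟩ g
  have h2 : pwS A hA (p ^ (i + v)) ≤ T := by
    rintro _ ⟨a, ha, rfl⟩
    have h3 := (transfer_pow p hG A E h1 b L v hb hL hv a).2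
    rw [← pow_mul, ← pow_add] at h3
    rwa [add_comm i v]
  exact hne (pwS_strict p hG (i + v) h2)

end pws

section win
variable {G : Type} [Group G] [Fintype G]

lemma bern (n : ℕ) : 2 ^ n * (n + 2) ≤ 2 * 3 ^ n := by
  induction n with
  | zero => norm_num
  | succ n ih =>
    have h : 2 ^ n ≤ 3 ^ n := Nat.pow_le_pow_left (by norm_num) n
    rw [pow_succ, pow_succ]
    nlinarith

theorem card_G_le (A : Subgroup G) (hA : ∀ a ∈ A, ∀ b ∈ A, a * b = b * a) (b : ℕ)
    (hb : A.index ≤ b) : Nat.card G ≤ b ^ 2 * kk G := by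
  classical
  have h1 := card_le_classes (Finset.univ.filter (fun x : G => x ∈ A)) b (fun x hx =>
    (class_size_le A hA (Finset.mem_filter.1 hx).2).trans hb)
  have h2 : (Finset.univ.filter (fun x : G => x ∈ A)).card = Nat.card A := by
    rw [← Fintype.card_subtype, ← Nat.card_eq_fintype_card]
  have h3 : ((Finset.univ.filter (fun x : G => x ∈ A)).image ConjClasses.mk).card ≤ kk G := by
    unfold kk
    rw [Nat.card_eq_fintype_card]
    exact Finset.card_le_univ _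
  rw [h2] at h1
  rw [← A.card_mul_index]
  calc Nat.card A * A.index ≤ (b * kk G) * b := Nat.mul_le_mul (h1.trans (Nat.mul_le_mul_left _ h3)) hb
    _ = b ^ 2 * kk G := by ring

theorem bound_exp (p : ℕ) [hp : Fact p.Prime] (hG : IsPGroup p G) (A : Subgroup G) [hAn : A.Normal]
    (hA : ∀ a ∈ A, ∀ b ∈ A, a * b = b * a) (b L α : ℕ) (hb : A.index ≤ b)
    (hL : Nat.card (G ⧸ commutator G) ≤ L) (hz : zz G ≤ α * kk G) :
    ∀ a ∈ A, a ^ p ^ ((4 * b * α + 2 * b ^ 2 + 1) * (b * L + 1)) = 1 := by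
  classical
  set v := b * L with hv
  set J := 4 * b * α + 2 * b ^ 2 + 1 with hJ
  by_contra hcon
  push Not at hcon
  obtain ⟨a0, ha0, ha1⟩ := hcon
  let S : ℕ → Subgroup G := fun i => pwS A hA (p ^ i)
  have hSn : ∀ i, (S i).Normal := fun i => pwS_normal _
  have hSa : ∀ i j, i ≤ j → S j ≤ S i := fun i j hij => pwS_anti (pow_dvd_pow p hij)
  have hSne : ∀ i, i ≤ J * (v + 1) → S i ≠ ⊥ := by
    intro i hi h
    have h1 : a0 ^ p ^ (J * (v + 1)) ∈ S (J * (v + 1)) := ⟨a0, ha0, rfl⟩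
    have h2 := hSa i _ hi h1
    rw [h, Subgroup.mem_bot] at h2
    exact ha1 h2
  let Ts : ℕ → Subgroup G := fun j => S ((j + 1) * (v + 1))
  let Us : ℕ → Subgroup G := fun j => S (j * (v + 1))
  let K : ℕ → ℕ := fun j => kq (S (j * (v + 1))) * Nat.card (S (j * (v + 1)))
  have hkk : 0 < kk G := Nat.card_pos
  -- good windows
  have hgood : ∀ j < J, 2 * K j ≤ 3 * K (j + 1) → kk G ≤ 4 * b * ∑ χ ∈ Pw (Ts j) (Us j), zr χ := by
    intro j hj hK
    have hTn : (Ts j).Normal := hSn _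
    have hUn : (Us j).Normal := hSn _
    have h1 : j * (v + 1) + v + 1 = (j + 1) * (v + 1) := by ring
    have hTU : Ts j ≤ Us j := hSa _ _ (Nat.mul_le_mul_right _ (Nat.le_succ j))
    refine good_window p hG A (Ts j) (Us j) hTU (pwS_le _) hA b hb hK ?_
    have h2 := pwS_comm (A := A) (hA := hA) p hG b L v hb hL le_rfl (j * (v + 1)) (by
      refine hSne _ ?_
      have h3 : (j + 1) * (v + 1) ≤ J * (v + 1) := Nat.mul_le_mul_right _ hj
      omega)
    rw [h1] at h2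
    exact h2
  have hdisj : ∀ j j', j < j' → Disjoint (Pw (Ts j) (Us j)) (Pw (Ts j') (Us j')) := by
    intro j j' hjj
    rw [Finset.disjoint_left]
    intro χ h1 h2
    rw [mem_Pw] at h1 h2
    exact h2.2.2 (h1.2.1.mono (hSa _ _ (Nat.mul_le_mul_right _ hjj)))
  set Gd := (Finset.range J).filter (fun j => 2 * K j ≤ 3 * K (j + 1)) with hGd
  have hsum : ∑ j ∈ Gd, ∑ χ ∈ Pw (Ts j) (Us j), zr χ ≤ zz G := by
    rw [← Finset.sum_biUnion]
    · unfold zz
      refine Finset.sum_le_sum_of_subset fun χ hχ => ?_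
      obtain ⟨j, _, hj⟩ := Finset.mem_biUnion.1 hχ
      exact (mem_Pw.1 hj).1
    · intro j _ j' _ hne
      rcases lt_or_gt_of_ne hne with h | h
      · exact hdisj j j' h
      · exact (hdisj j' j h).symm
  have hgc : Gd.card ≤ 4 * b * α := by
    have h1 : Gd.card * kk G ≤ 4 * b * α * kk G := by
      calc Gd.card * kk G = ∑ j ∈ Gd, kk G := by rw [Finset.sum_const, smul_eq_mul]
        _ ≤ ∑ j ∈ Gd, 4 * b * ∑ χ ∈ Pw (Ts j) (Us j), zr χ := by
            refine Finset.sum_le_sum fun j hj => ?_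
            have hj := Finset.mem_filter.1 hj
            exact hgood j (Finset.mem_range.1 hj.1) hj.2
        _ = 4 * b * ∑ j ∈ Gd, ∑ χ ∈ Pw (Ts j) (Us j), zr χ := by rw [Finset.mul_sum]
        _ ≤ 4 * b * (α * kk G) := Nat.mul_le_mul_left _ (hsum.trans hz)
        _ = _ := by ring
    exact Nat.le_of_mul_le_mul_right h1 hkk
  -- bad windows
  have hbad : ∀ m, 3 ^ ((Finset.range m).filter (fun j => ¬ 2 * K j ≤ 3 * K (j + 1))).card * K m ≤
      2 ^ ((Finset.range m).filter (fun j => ¬ 2 * K j ≤ 3 * K (j + 1))).card * K 0 := by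
    intro m
    induction m with
    | zero => simp
    | succ m ih =>
      rw [Finset.range_add_one, Finset.filter_insert]
      have hKm : K (m + 1) ≤ K m := by
        have := hSn ((m + 1) * (v + 1))
        have := hSn (m * (v + 1))
        exact K_mono (hSa _ _ (Nat.mul_le_mul_right _ (Nat.le_succ m)))
      by_cases h : 2 * K m ≤ 3 * K (m + 1)
      · rw [if_neg (not_not.2 h)]
        exact (Nat.mul_le_mul_left _ hKm).trans ih
      · rw [if_pos h, Finset.card_insert_of_notMem (by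
          rw [Finset.mem_filter, Finset.mem_range]
          exact fun h => lt_irrefl _ h.1)]
        push Not at h
        rw [pow_succ, pow_succ]
        set t := ((Finset.range m).filter (fun j => ¬ 2 * K j ≤ 3 * K (j + 1))).card with ht
        calc 3 ^ t * 3 * K (m + 1)
            = 3 ^ t * (3 * K (m + 1)) := by ring
          _ ≤ 3 ^ t * (2 * K m) := Nat.mul_le_mul_left _ h.le
          _ = 2 * (3 ^ t * K m) := by ring
          _ ≤ 2 * (2 ^ t * K 0) := Nat.mul_le_mul_left _ ih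
          _ = _ := by ring
  have hb1 := hbad J
  have hKJ : kk G ≤ K J := by
    have := hSn (J * (v + 1))
    exact kk_le_K _
  have hK0 : K 0 ≤ b ^ 2 * kk G := by
    have := hSn (0 * (v + 1))
    exact (K_le_card _).trans (card_G_le A hA b hb)
  set n := ((Finset.range J).filter (fun j => ¬ 2 * K j ≤ 3 * K (j + 1))).card with hn
  have h1 : 3 ^ n * kk G ≤ 2 ^ n * b ^ 2 * kk G := by
    calc 3 ^ n * kk G ≤ 3 ^ n * K J := Nat.mul_le_mul_left _ hKJ
      _ ≤ 2 ^ n * K 0 := hb1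
      _ ≤ 2 ^ n * (b ^ 2 * kk G) := Nat.mul_le_mul_left _ hK0
      _ = _ := by ring
  have h2 := Nat.le_of_mul_le_mul_right h1 hkk
  have h3 := bern n
  have h4 : n + 2 ≤ 2 * b ^ 2 := by
    have h5 : 2 ^ n * (n + 2) ≤ 2 ^ n * (2 * b ^ 2) := by
      calc 2 ^ n * (n + 2) ≤ 2 * 3 ^ n := h3
        _ ≤ 2 * (2 ^ n * b ^ 2) := Nat.mul_le_mul_left _ h2
        _ = _ := by ring
    exact Nat.le_of_mul_le_mul_left h5 (by positivity)
  have h5 := Finset.card_filter_add_card_filter_not (s := Finset.range J)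
    (fun j => 2 * K j ≤ 3 * K (j + 1))
  rw [Finset.card_range, ← hGd] at h5
  have h6 : Gd.card + n = J := h5
  linarith

end win

end Pool.Agent.X39.AZ
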